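import Pool.Agent.Run7.h135.XK.Defs

/-!
# Project XK, the algebraic side: the pieces

Theorem (`S_ALG`): `n` squarefree, `n ≡ 23, 47 mod 60`, with `Qc n` (no nontrivial solvable
factorization), `K = ℚ(√(-n))`, `E = X_0(15) : y² = x (x - 9) (x - 25)`. Then `E(K)` has `8` points, the 2-primary
part of `Ш(E/K)` is killed by `2` and has order exactly `4 ^ (ω(n) - 1)`.

Tools: `Pool/Agent/TH841/SH/{Alg,Alg2}` (`IsR.dup, trans, sign, halve, div, isX_add, ext`, over any field),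
`TH841/SH/{Kum,Loc,Tr}` (the same over `ℚ`), `TH841/NF/*` (`Th`, `thS`, `thS_ker`, `emb_p`), `Y682/CorK`
(corestriction `co`), `Run7/h424/DC/*` (descent for `y² = x (x + 9 n) (x + 25 n)`),
`Y971.SG.Lq.t_SQ, padic_sq2` (squares in `ℚ_[p]`), `Run7/h428/NF/*` (places of multiquadratic fields).
Every piece `S_X` is a closed proposition; a proof may assume the pieces named in its hypotheses.
-/

set_option autoImplicit false

open NumberField IsDedekindDomain WeierstrassCurve WithZero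

namespace Run7.h135.XK

open Pool.Agent.TH841.SH.D (Pt act Gal Coch IsCoc IsCob LocTriv cob)
open Pool.Agent.TH841.NF.D (Sha IsShaCoc shaCoc)
open Pool.Agent.TH841.SH (IsR)
open Pool.Agent.N969.P15 (Qc)

/-! ### 1. General 2-descent with full 2-torsion over a field `k` of characteristic zero -/

/-- **CAD** (80 lines). `T0, T1` are fixed by the Galois group and `T0 + T0 = T1 + T1 = 0`; `Fl (a a') σ` iff exactly one
of `Fl a σ`, `Fl a' σ`; `Fl (a c²) σ` iff `Fl a σ` (the square roots of `a` are `± s`). Locally constant: `Fl a` is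
`σ s ≠ s` for one square root `s` (an open and closed condition in the Krull topology; as `Pool.Agent.Y79.SG.t_COC`). -/
def S_CAD : Prop := ∀ (k : Type) [Field k] [CharZero k] (W : WeierstrassCurve k) (e0 e1 e2 : k),
  IsR W e0 e1 e2 → e0 ≠ e1 → e0 ≠ e2 → e1 ≠ e2 →
  (∀ a b : k, a ≠ 0 → b ≠ 0 → IsCoc W (Cc W e0 e1 a b) ∧ Cc W e0 e1 a b + Cc W e0 e1 a b = 0) ∧
  (∀ a b a' b' : k, a ≠ 0 → b ≠ 0 → a' ≠ 0 → b' ≠ 0 →
    Cc W e0 e1 (a * a') (b * b') = Cc W e0 e1 a b + Cc W e0 e1 a' b') ∧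
  (∀ a b c d : k, a ≠ 0 → b ≠ 0 → c ≠ 0 → d ≠ 0 →
    Cc W e0 e1 (a * c ^ 2) (b * d ^ 2) = Cc W e0 e1 a b)

/-- **LTA** (150 lines). A point over `K` makes the cocycle locally trivial. Let `ι` be an embedding of the algebraic
closures, `s, t` square roots of `a, b` in the closure of `k`. If `a, b` are squares in `K`, then `ι s, ι t ∈ K`, so `P = 0` works.
Otherwise `A = ι s u`, `B = ι t v`, `C = ι s ι t w` satisfy `A² = x - e0`, `B² = x - e1`, `C² = x - e2`, and `IsR.halve` (see its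
formula; `gf` of the half is `A`, `B`, `C`) gives `P` with `2 P = (x, ± A B C)`; for compatible `(τ, σ)` `τ P - P` has order two
(as `A B C` is fixed), and it is the point `T` for which the functions `gf` change sign like `A, B, C` under `τ`
(`IsR.sign`; at most one of `A, B, C` is zero, and two signs determine `T`, `IsR.ext`): `T = ι (Cc σ)`. -/
def S_LTA : Prop := ∀ (k : Type) [Field k] [CharZero k] (W : WeierstrassCurve k) (e0 e1 e2 : k),
  IsR W e0 e1 e2 → e0 ≠ e1 → e0 ≠ e2 → e1 ≠ e2 → ∀ a b : k, a ≠ 0 → b ≠ 0 →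
  ∀ (K : Type) [Field K] [Algebra k K], Im K (algebraMap k K e0) (algebraMap k K e1)
    (algebraMap k K e2) (algebraMap k K a) (algebraMap k K b) → LocTriv W K (Cc W e0 e1 a b)

/-- **LTB** (130 lines). The converse. Take one embedding `ι` and `P` with `ι (Cc σ) = τ P - P` for all compatible `(τ, σ)`
(`exists_restr` of `TH841/SH/Loc.lean`, the proof works over any `k`). `2 P` is fixed by all `τ`. If `2 P = 0` then `P = 0` or
`(ei, 0)` is fixed, so `Cc σ = 0` for all the `σ` that occur, so `ι s, ι t` are fixed, so in `K` (`s² = a`, `t² = b`). Otherwise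
`P = (x0, y0)`, `y0 ≠ 0`, `2 P = (x, y)` with `x ∈ K`, `gf_i(P)² = x - ei` (`IsR.dup`), and `gf_0(P) ι s`, `gf_1(P) ι t`,
`gf_2(P) ι s ι t` are fixed by all `τ` (`IsR.sign`), hence in `K`: as `loc_one` in `TH841/SH/Loc.lean`. -/
def S_LTB : Prop := ∀ (k : Type) [Field k] [CharZero k] (W : WeierstrassCurve k) (e0 e1 e2 : k),
  IsR W e0 e1 e2 → e0 ≠ e1 → e0 ≠ e2 → e1 ≠ e2 → ∀ a b : k, a ≠ 0 → b ≠ 0 →
  ∀ (K : Type) [Field K] [Algebra k K], LocTriv W K (Cc W e0 e1 a b) →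
    Im K (algebraMap k K e0) (algebraMap k K e1) (algebraMap k K e2) (algebraMap k K a)
      (algebraMap k K b)

/-- **LTG** (30 lines), from `LTA`, `LTB` with `K = k`: `LocTriv W k f ↔ IsCob W f` (take the identity for `ι`; conversely
apply `act ι` to the point). -/
def S_LTG : Prop := ∀ (k : Type) [Field k] [CharZero k] (W : WeierstrassCurve k) (e0 e1 e2 : k),
  IsR W e0 e1 e2 → e0 ≠ e1 → e0 ≠ e2 → e1 ≠ e2 → ∀ a b : k, a ≠ 0 → b ≠ 0 →
    (IsCob W (Cc W e0 e1 a b) ↔ Im k e0 e1 e2 a b)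

/-- **REP** (150 lines). Kummer theory. `f + f = ∂ P`, `P = 2 Q` (`IsR.div`), `g = f - ∂ Q` is a cocycle with values in the points of
order two, which are rational, so a continuous homomorphism. The two homomorphisms to `±1` (`g σ ∈ {T1, T2}` and
`g σ ∈ {T0, T2}`) are `Fl a`, `Fl b`: as `Pool.Agent.TH841.SH.kum` (there over `ℚ`): the fixed field of the kernel is `k` or
quadratic. -/
def S_REP : Prop := ∀ (k : Type) [Field k] [CharZero k] (W : WeierstrassCurve k) (e0 e1 e2 : k),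
  IsR W e0 e1 e2 → e0 ≠ e1 → e0 ≠ e2 → e1 ≠ e2 → ∀ f : Coch W, IsCoc W f → IsCob W (f + f) →
    ∃ a b : k, a ≠ 0 ∧ b ≠ 0 ∧ IsCob W (f - Cc W e0 e1 a b)

/-! ### 2. Corestriction -/

/-- **COR** (150 lines). The corestriction of `Cc α β` is `Cc (N α) (N β)`. Use `co` of `Y682/CorK.lean` (`co_sha`) or
`Th` with `T = ∅` of `TH841/NF/Th2.lean` (`Th_sha`; `tw 1 E0 = E0`): with the section `s(q)` of `Gal(ℚ)/Gal(K)` (two cosets)
`co f g = ∑_q s(g q) f(s(g q)⁻¹ g s(q))`. The points of order two are rational, so the value is `T1` times the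
number of `q` for which `s(g q)⁻¹ g s(q)` moves `√α`, plus the same with `T0`, `β`. With `ρ = ∏_q s(q) √α`, `ρ² = N α` and
`g ρ = ∏_q s(g q) (s(g q)⁻¹ g s(q) √α) = ± ρ` with this parity. Norm: `N (u + v r) = u² - v² d = u² + n v²`. -/
def S_COR : Prop := ∀ (K : Type) [Field K] [NumberField K] (n : ℕ) (r : K), Cl n → QK K n r →
  ∀ u v u' v' : ℚ, (u : K) + v * r ≠ 0 → (u' : K) + v' * r ≠ 0 →
    IsShaCoc (E0 K) (Cc (E0 K) 0 9 (u + v * r) (u' + v' * r)) →
    Pool.Agent.TH841.SH.D.IsShaCoc (E0 ℚ) (Cc (E0 ℚ) 0 9 (u ^ 2 + n * v ^ 2) (u' ^ 2 + n * v' ^ 2))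

/-- **SHQ** (60 lines), from `CAD`, `REP`, `LTG`, `SELQ`: the 2-primary part of `Ш(E0/ℚ)` is zero (enough: elements of order two).
The classes `(1, 1), (1, -1), (5, -1), (5, 1)` come from the points `O` and `x = 0, 5, 45`. -/
def S_SHQ : Prop := ∀ (k : ℕ) (x : Pool.Agent.TH841.SH.D.Sha (E0 ℚ)), 2 ^ k • x = 0 → x = 0

/-- **KIL** (120 lines), from `SHQ`. `thS_ker` of `TH841/NF/Hom.lean` with one square root `r`, `d = -n`: `T = ∅` maps to
`Ш(tw 1 E0)`, `T = {0}` to `Ш(tw (-n) E0)`, `tw (-n) E0 : y² = x (x + 9 n) (x + 25 n)`, whose 2-primary part is zero by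
`Run7.h424.DC.iffF` (there `Ш` is defined with the completions `v.adicCompletion ℚ`, in `thS` with `ℚ_[p]`: see
`Pool/Agent/R432/JG/Common.lean`, `Y682/Rst.lean` for the comparison). -/
def S_KIL : Prop := ∀ (K : Type) [Field K] [NumberField K] (n : ℕ) (r : K), Cl n → Qc n → QK K n r →
  ∀ (k : ℕ) (x : Sha (E0 K)), 2 ^ k • x = 0 → 2 • x = 0

/-! ### 3. Local conditions, necessary: `L` a field with a discrete valuation -/

/-- **N2** (120 lines). `L` unramified above `2`. Fact A: if `a` is a squarefree integer and `v (a t² - 1) ≤ exp (-2)` then `a ≡ 1 mod 4`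
(`v a` is even, so `a` is odd, `v t = 1`; `v (t² - 1) < 1` gives `v (t - 1) < 1`, `v (t + 1) < 1`, `v (t² - 1) ≤ exp (-2)`; and
`v (a - 1) ≤ exp (-2)` gives `4 ∣ a - 1`). If `a, b` are squares: fact A. Otherwise put `X0 = x = a u²`, `X1 = x - 9 = b v²`,
`X2 = x - 25 = a b w²`, `ρ = X2 / X1 = a (w / v)²`. (i) `v x > 1`: all three have the same valuation, even (it is `≡ v a`,
`≡ v b`, `≡ v a + v b`), so `b` is odd, and `X1 X2 / x² = a (b v w / x)²` is `≡ 1 mod 4`: fact A. (ii) `v X1 = 1`: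
`b` is odd, `ρ = 1 - 16 / X1`: fact A. (iii) `v x = 1`, `v X1 = exp (-j)`, `j ≥ 1`; `u` is a unit, `a` odd. `j ≥ 4` or `X1 = 0`: `x ≡ 1 mod 4`,
so `a ≡ 1 mod 4` by fact A; `X1 X2 = a (b v w)²` has even valuation, one of `X1, X2` (difference `16`) has valuation
`exp (-4)`, so `v X1` is even (or `X1 = 0`, `X2 = -16 = a b w²`), `b` is odd. `j = 2`: `ρ ≡ 1 mod 4`, `b` is odd. `j = 1`: `ρ ≡ 1 mod 8`, so
`a ≡ 1 mod 4`, `u ≡ 1 mod 2`, `u² ≡ 1 mod 4`, `x ≡ 1 mod 4`: contradiction. `j = 3`: `x ≡ 1 mod 4`, so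
`a ≡ 1 mod 4`; `ρ = a (w / v)²` with `v (ρ - 1) = exp (-1)`, but `(w / v)² ≡ 1 mod 2`, so mod `4`: contradiction. -/
def S_N2 : Prop := ∀ (L : Type) [Field L] (v : Valuation L ℤᵐ⁰), v 2 = exp (-1 : ℤ) →
  ∀ a b : ℤ, Squarefree a.natAbs → Squarefree b.natAbs → Im L 0 9 25 (a : L) (b : L) →
    a % 4 = 1 ∧ b % 2 = 1

/-- **N3** (100 lines). `L` unramified above `3`, `-1` not a square in the residue field. `v x > 1`: all three valuations are equal and
even. `v x = 1`: `v (x - 9) = 1`, so `v a`, `v b` are even. `v x < 1`: `v (x - 25) = 1`, so `v a ≡ v b`; if `v x = exp (-1)` and these are odd: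
`ab ≡ x / (x - 9) ≡ 1` and `ab ≡ x - 25 ≡ -1` modulo squares of units, contradiction; `v x = exp (-2)`: even;
`v x < exp (-2)`: `v (x - 9) = exp (-2)`, even. (`3 ∣ a` iff `v a = exp (-1)`, for `a` squarefree.) -/
def S_N3 : Prop := ∀ (L : Type) [Field L] (v : Valuation L ℤᵐ⁰), v 3 = exp (-1 : ℤ) →
  (∀ t : L, ¬ v (t ^ 2 + 1) < 1) →
  ∀ a b : ℤ, Squarefree a.natAbs → Squarefree b.natAbs → Im L 0 9 25 (a : L) (b : L) →
    ¬ (3 : ℤ) ∣ a ∧ ¬ (3 : ℤ) ∣ b

/-- **N5** (60 lines). `v x > 1`: even. `v x = 1`: `v a` even; `v (x - 25) = 1`, so `v (ab)` even. `v x < 1`: `v (x - 9) = 1`. -/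
def S_N5 : Prop := ∀ (L : Type) [Field L] (v : Valuation L ℤᵐ⁰), v 5 = exp (-1 : ℤ) →
  ∀ a b : ℤ, Squarefree a.natAbs → Squarefree b.natAbs → Im L 0 9 25 (a : L) (b : L) →
    ¬ (5 : ℤ) ∣ b

/-- **NP** (80 lines). The differences `9, 16, 25` are units. `v x > 1`: all equal and even; otherwise at most one of
`x, x - 9, x - 25` has `v < 1`, the other two give two of `v a, v b, v (a b)` even. -/
def S_NP : Prop := ∀ (L : Type) [Field L] (v : Valuation L ℤᵐ⁰) (p : ℕ), p.Prime → ¬ p ∣ 30 →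
  v (p : L) = exp (-1 : ℤ) →
  ∀ a b : ℤ, Squarefree a.natAbs → Squarefree b.natAbs → Im L 0 9 25 (a : L) (b : L) →
    ¬ (p : ℤ) ∣ a ∧ ¬ (p : ℤ) ∣ b

/-- **SELQ** (100 lines), from `CAD`, `LTB`, `N2`, `N3`, `N5`, `NP`: the Selmer group over `ℚ`. Write `a, b` as squarefree integers times squares
(`Run7.h424.DC.exists_sf`); `LTB` with `K = ℚ_[p]` (valuation `Padic.mulValuation`) and `K = ℝ`; over `ℝ`: `a > 0`
(`a < 0` gives `x ≤ 0`, `x - 9 < 0`, so `b < 0`, `a b > 0`, `x - 25 ≥ 0`, contradiction). So `a ∈ {1, 5}`, `b = ± 1`. -/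
def S_SELQ : Prop := ∀ a b : ℚ, a ≠ 0 → b ≠ 0 →
  Pool.Agent.TH841.SH.D.IsShaCoc (E0 ℚ) (Cc (E0 ℚ) 0 9 a b) →
    (IsSquare a ∨ IsSquare (5 * a)) ∧ (IsSquare b ∨ IsSquare (-b))

/-! ### 4. Local conditions, sufficient -/

/-- **U23** (60 lines). Explicit points. At `2`: `a ≡ 5 mod 8`: `x = 9 + 4 b` (`x ≡ 5`, `x - 9 = 4 b`, `x - 25 = 4 (b - 4)`,
`b - 4 ≡ 5 b mod 8`); `a ≡ 1 mod 8`: `b ≡ 1`: squares; `b ≡ 7`: `x = 0`; `b ≡ 5`: `x = 1/4`; `b ≡ 3`: `x = 900`. At `3`: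
`x = 0` for `(1, -1)`, `x = 5` for `(-1, -1)`, `x = 45` for `(-1, 1)`. -/
def S_U23 : Prop :=
  (∀ a b : ℤ, a % 4 = 1 → b % 2 = 1 → Im ℚ_[2] 0 9 25 (a : ℚ_[2]) (b : ℚ_[2])) ∧
  (∀ [Fact (Nat.Prime 3)], ∀ a b : ℤ, ¬ (3 : ℤ) ∣ a → ¬ (3 : ℤ) ∣ b → Im ℚ_[3] 0 9 25 (a : ℚ_[3]) (b : ℚ_[3]))

/-- **FF** (130 lines). Finite fields. `E(k)/2 E(k)` has order `#E(k)[2] = 4`; the classes `κ(P) = (x - e0, x - e1)` modulo
squares (for `P = (e0, 0)`: `((e0 - e1)(e0 - e2), e0 - e1)`, etc.; two square classes in `k*`, so four pairs): if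
`κ(P) = κ(Q)` then `P - Q ∈ 2 E(k)` (the product of the values of `x - ei` at `P, Q, -(P+Q)` is the square of the value of the line, and `IsR.halve`), so all
four pairs occur. (Or: any other proof that the curve `a u² - b v² = e1 - e0`, `a u² - a b w² = e2 - e0` has a
point, e.g. by counting.) -/
def S_FF : Prop := ∀ (k : Type) [Field k] [Finite k] (e0 e1 e2 a b : k), (2 : k) ≠ 0 → e0 ≠ e1 → e0 ≠ e2 →
  e1 ≠ e2 → a ≠ 0 → b ≠ 0 → Im k e0 e1 e2 a b

/-- **UP** (80 lines), from `FF` with `k = ZMod p`, lifting squares by `Y971.SG.Lq.t_SQ` (take `x = ei` exactly if `x ≡ ei`). -/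
def S_UP : Prop := ∀ (p : ℕ) [Fact p.Prime], ¬ p ∣ 30 → ∀ a b : ℤ, ¬ (p : ℤ) ∣ a → ¬ (p : ℤ) ∣ b →
  Im ℚ_[p] 0 9 25 (a : ℚ_[p]) (b : ℚ_[p])

/-! ### 5. The places of `K = ℚ(√(-n))` -/

/-- **PLU** (60 lines). `ℚ_p` maps to the completion at a place above `p`, for every number field (look in the library first, e.g.
`TH841/NF/Plc.lean`, `Y682`, `Y698`; or: `ℚ → K_v` is uniformly continuous for the `p`-adic topology, and extend). -/
def S_PLU : Prop := ∀ (K : Type) [Field K] [NumberField K] (v : HeightOneSpectrum (𝓞 K)) (p : ℕ) [Fact p.Prime],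
  (p : 𝓞 K) ∈ v.asIdeal → Nonempty (ℚ_[p] →+* v.adicCompletion K)

/-- **PLV** (100 lines). The primes `p ∤ n` (also `p = 2`, as `-n ≡ 1 mod 4`) are unramified: see `Run7/h428/NF/{Pl,Plc,Ram}`. Direct proof:
`ω = (1 + r)/2` resp. `r` generates: the discriminant of `1, ω` is `-n`. If `p ∈ 𝔭²` then `𝔭² = (p)`, `𝔭` is stable under
conjugation; for `α ∈ 𝔭` the trace and `(α - α')² = tr² - 4 N` ... `α - α' ∈ 𝔭` gives `α ≡ α'` for all `α ∈ 𝓞 K` (residue degree
one), so `ω - ω' = r ∈ 𝔭`, `n ∈ 𝔭`, contradiction. -/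
def S_PLV : Prop := ∀ (K : Type) [Field K] [NumberField K] (n : ℕ) (r : K), Cl n → QK K n r →
  ∀ (v : HeightOneSpectrum (𝓞 K)) (p : ℕ), p.Prime → (p : 𝓞 K) ∈ v.asIdeal → ¬ p ∣ n →
    v.valuation K (p : K) = exp (-1 : ℤ)

/-- **PL3** (90 lines). `3` splits (`-n ≡ 1 mod 3`), so the residue field has three elements: `(r - 1)(r + 1) = -n - 1 ∈ 𝔭`; every
`α ∈ 𝓞 K` has `2 α = x + y r` with integers `x, y`, so it is congruent to an integer modulo `𝔭`; an integral `t ∈ K_v` is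
congruent to an element of `𝓞 K`, so to an integer `m`, and `3 ∤ m² + 1`. -/
def S_PL3 : Prop := ∀ (K : Type) [Field K] [NumberField K] (n : ℕ) (r : K), Cl n → QK K n r →
  ∀ v : HeightOneSpectrum (𝓞 K), (3 : 𝓞 K) ∈ v.asIdeal → ∀ t : v.adicCompletion K,
    ¬ Valued.v (t ^ 2 + 1) < 1

/-- **PL5** (40 lines), from `PLU`: `-n` is not a square modulo `5`, so `m` or `- n m` is a square in `ℚ_5` (`t_SQ`), and `-n = r²`. -/
def S_PL5 : Prop := ∀ (K : Type) [Field K] [NumberField K] (n : ℕ) (r : K), Cl n → QK K n r →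
  ∀ v : HeightOneSpectrum (𝓞 K), (5 : 𝓞 K) ∈ v.asIdeal → ∀ m : ℤ, ¬ (5 : ℤ) ∣ m →
    IsSquare (m : v.adicCompletion K)

/-- **PLC** (30 lines): the infinite place is complex. -/
def S_PLC : Prop := ∀ (K : Type) [Field K] [NumberField K] (n : ℕ) (r : K), Cl n → QK K n r →
  ∀ (v : InfinitePlace K) (z : v.Completion), IsSquare z

/-- **LOCN** (90 lines), from `LTB`, `N2`, `N3`, `N5`, `NP`, `PLV`, `PL3`: the necessary conditions. For every prime `p` there is a place above `p`. -/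
def S_LOCN : Prop := ∀ (K : Type) [Field K] [NumberField K] (n : ℕ) (r : K), Cl n → QK K n r →
  ∀ a b : ℤ, Squarefree a.natAbs → Squarefree b.natAbs →
    IsShaCoc (E0 K) (Cc (E0 K) 0 9 (a : K) (b : K)) → Cond n a b

/-- **LOCS** (130 lines), from `CAD`, `LTA`, `U23`, `UP`, `PLU`, `PL5`, `PLC`: the sufficient conditions. Places above `2, 3`: `U23` and `PLU`. Above
`5`: if `5 ∤ a` both are squares (`PL5`), if `a = 5 a'` take `x = 45` (`45 / a = 9 / a'`, `36 / b`, `20 / (a b) = 4 / (a' b)` are squares). Above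
`p ∤ 30 n`: `p ∤ a b`, `UP` and `PLU`. Above `p ∣ n`: if `p ∣ a` replace `a` by `a r² / p² = (a / p) (- n / p)`, prime to `p`,
which does not change the cocycle (`CAD`), the same for `b`; then `UP`, `PLU`. Infinite places: `PLC`. -/
def S_LOCS : Prop := ∀ (K : Type) [Field K] [NumberField K] (n : ℕ) (r : K), Cl n → QK K n r →
  ∀ a b : ℤ, Cond n a b → IsShaCoc (E0 K) (Cc (E0 K) 0 9 (a : K) (b : K))

/-! ### 6. Global -/

/-- **HN** (60 lines). Hilbert 90 and norms. `u² + n v² = c²`, `v ≠ 0`: `(u + v r + c)² = 2 (u + c)(u + v r)`. Modulo `5`, `-n ≡ 2, 3` is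
not a square, so `u² + n v² = 5 c²` has no solutions `c ≠ 0` (descent on `5`-adic valuations). -/
def S_HN : Prop := ∀ n : ℕ, Cl n →
  (∀ (K : Type) [Field K] [CharZero K] (r : K), QK K n r → ∀ u v : ℚ, (u : K) + v * r ≠ 0 →
    IsSquare (u ^ 2 + n * v ^ 2) → ∃ (a : ℚ) (g : K), a ≠ 0 ∧ g ≠ 0 ∧ (u : K) + v * r = a * g ^ 2) ∧
  (∀ u v : ℚ, u ^ 2 + n * v ^ 2 ≠ 0 → ¬ IsSquare (5 * (u ^ 2 + n * v ^ 2)) ∧ ¬ IsSquare (-(u ^ 2 + n * v ^ 2)))

/-- **RAT** (130 lines), from `CAD`, `REP`, `COR`, `SELQ`, `HN`: every element of order two is given by a pair of squarefree integers. -/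
def S_RAT : Prop := ∀ (K : Type) [Field K] [NumberField K] (n : ℕ) (r : K), Cl n → QK K n r →
  ∀ x : Sha (E0 K), 2 • x = 0 → ∃ a b : ℤ, Squarefree a.natAbs ∧ Squarefree b.natAbs ∧
    ∃ hf : IsShaCoc (E0 K) (Cc (E0 K) 0 9 (a : K) (b : K)), x = cl _ hf

/-- **FQ** (200 lines): the rational points of `X_0(15)`. The group is finitely generated (`Pool.Agent.Y682.fg_MP`), the classes of its
points modulo `2` are among `(1, ±1), (5, ±1)` (`N2`, `N3`, `N5`, `NP` and the sign; a rational point gives `Im ℚ_[p]` for all `p`), which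
are the classes of the known points, so `E(ℚ)` is the sum of the subgroup `S` of the eight points and `2 E(ℚ)`; so `E(ℚ)/S` is finite of odd
order, `E(ℚ)` is finite, and there are no points of odd order (reduction, as in `Run7/h424/M6/{Tj,Tk,Tl}` for the twists; `#E(𝔽_7) = 8`). -/
def S_FQ : Prop := ∀ x y : ℚ, y ^ 2 = x * (x - 9) * (x - 25) →
  x = 0 ∨ x = 9 ∨ x = 25 ∨ x = 5 ∨ x = 45

/-- **TOR** (150 lines), from `FQ`. `P + P'` is rational over `ℚ`, `P - P'` is a rational point of the twist `E_n`, which has four points, all of order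
two (`Run7.h424.DC.iffF`, `Run7.h424.M6.s_tor`). `S = E(ℚ)` is killed by `4`, so `8 P = 0`. A point `Q ∈ S` is `2 P` with `P` over `K` only if
`x(Q), x(Q) - 9, x(Q) - 25` are squares in `K`: `Q = (0, 0), (9, 0)`: `-9`, no (`-1` is not a square in `K`, `n ≠ 1`); `x = 5, 45`: `5` is not a
square in `K`; so `2 P ∈ {O, (25, 0)}`, and the halves of `(25, 0)` have `x = 5, 45`. -/
def S_TOR : Prop := ∀ (K : Type) [Field K] [NumberField K] (n : ℕ) (r : K), Cl n → Qc n → QK K n r →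
  (∀ x y : K, y ^ 2 = x * (x - 9) * (x - 25) → x = 0 ∨ x = 9 ∨ x = 25 ∨ x = 5 ∨ x = 45) ∧
    Nat.card (E0 K).toAffine.Point = 8

/-- **KER** (120 lines), from `LTG`, `TOR`. If the class is trivial, `Im K 0 9 25 a b` with `x ∈ {0, 9, 25, 5, 45}` gives `a ∈ {1, 5}`, `b ∈ {1, -1}` modulo squares of
`K`; an integer `m ≠ 0` is a square in `K` iff `m` or `- n m` is a square of an integer. Conversely these are classes of points. -/
def S_KER : Prop := ∀ (K : Type) [Field K] [NumberField K] (n : ℕ) (r : K), Cl n → Qc n → QK K n r →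
  ∀ a b : ℤ, Cond n a b → (IsCob (E0 K) (Cc (E0 K) 0 9 (a : K) (b : K)) ↔
    (a = 1 ∨ a = 5 ∨ a = -n ∨ a = -5 * n) ∧ (b = 1 ∨ b = -1 ∨ b = n ∨ b = -n))

/-- **ALG** (250 lines), the assembly, from `CAD`, `LOCS`, `LOCN`, `RAT`, `KIL`, `TOR`, `KER`. The finite group
`G = ((5 n).primeFactors → ZMod 2) × (n.primeFactors → ZMod 2) × ZMod 2` has `4 ^ (ω(n) + 1)` elements; `(x, y, s)` gives
`a = ∏ p*^(x p)` (`p* ≡ 1 mod 4`) and `b = (-1)^s ∏ p^(y p)`, and these are all the pairs with `Cond n a b`. The map to `Ш(E0/K)` is a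
homomorphism (`CAD`), its image is the 2-primary part (`KIL`, `RAT`, `LOCN`) and its kernel has `16` elements (`KER`). -/
def S_ALG : Prop := ∀ (K : Type) [Field K] [NumberField K] (n : ℕ) (r : K), Cl n → Qc n → QK K n r →
  Nat.card (E0 K).toAffine.Point = 8 ∧
  (∀ (k : ℕ) (x : Sha (E0 K)), 2 ^ k • x = 0 → 2 • x = 0) ∧
  Nat.card {x : Sha (E0 K) // ∃ k : ℕ, 2 ^ k • x = 0} = 4 ^ (n.primeFactors.card - 1)

/-- **ISO** (60 lines). The same for the minimal equation `y² + x y + y = x³ + x² - 10 x - 10` (change of variables over `ℚ`; after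
`Run7/h424/M6/Fin.lean`, `Run7.h424.M6.iso`, there over `ℚ`). -/
def S_ISO : Prop := ∀ (K : Type) [Field K] [NumberField K],
  Nonempty (Sha (⟨1, 1, 1, -10, -10⟩ : WeierstrassCurve K) ≃+ Sha (E0 K)) ∧
  Nat.card (⟨1, 1, 1, -10, -10⟩ : WeierstrassCurve K).toAffine.Point = Nat.card (E0 K).toAffine.Point

end Run7.h135.XK
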