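import Pool.Agent.Run7.h135.XK.Fin
import Pool.Agent.Run7.h374.XK.LTA
import Pool.Agent.Run7.h424.XK.COR
import Pool.Agent.Run7.h424.XK.TOR
import Pool.Agent.Run7.h437.XK.FQ
import Pool.Agent.Run7.h639.XK.NP
import Pool.Agent.Run7.h890.XK.N2
import Pool.Agent.Run7.h890.XK.N3

/-!
# Project XK: the algebraic side, closed
-/

set_option autoImplicit false

open NumberField IsDedekindDomain WeierstrassCurve

namespace Run7.h135.XK

open Pool.Agent.TH841.NF.D (Sha)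
open Pool.Agent.N969.P15 (Qc)

theorem t_FQ : S_FQ :=
  Pool.Agent.Run7.h437.XK.t_FQ Run7.h890.XK.t_N2 Run7.h890.XK.t_N3 Run7.h639.XK.t_N5 Run7.h639.XK.t_NP

theorem t_ALG : S_ALG :=
  alg_of Pool.Agent.Run7.h374.XK.t_LTA Run7.h890.XK.t_N2 Run7.h890.XK.t_N3 Run7.h639.XK.t_N5
    Run7.h639.XK.t_NP Pool.Agent.Run7.h424.XK.t_COR (Pool.Agent.Run7.h424.XK.t_TOR t_FQ)

/-- the algebraic side for the minimal equation -/
theorem alg_fin {K : Type} [Field K] [NumberField K] {n : ℕ} (hn : Cl n) (hq : Qc n)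
    (h2 : Module.finrank ℚ K = 2) (hr : ∃ r : K, r ^ 2 = -(n : K)) :
    Nat.card (⟨1, 1, 1, -10, -10⟩ : WeierstrassCurve K).toAffine.Point = 8 ∧
    (∀ (k : ℕ) (x : Sha (⟨1, 1, 1, -10, -10⟩ : WeierstrassCurve K)), 2 ^ k • x = 0 → 2 • x = 0) ∧
    Nat.card {x : Sha (⟨1, 1, 1, -10, -10⟩ : WeierstrassCurve K) // ∃ k : ℕ, 2 ^ k • x = 0} =
      4 ^ (n.primeFactors.card - 1) :=
  alg_min t_ALG hn hq h2 hr

/-- the 2-Selmer group for the minimal equation -/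
theorem sel_fin {K : Type} [Field K] [NumberField K] {n : ℕ} (hn : Cl n)
    (h2 : Module.finrank ℚ K = 2) (hr : ∃ r : K, r ^ 2 = -(n : K)) :
    Module.Finite ℤ (Pool.Agent.Y682.MP (⟨1, 1, 1, -10, -10⟩ : WeierstrassCurve K)) ∧
    Nat.card {x : Sha (⟨1, 1, 1, -10, -10⟩ : WeierstrassCurve K) // 2 • x = 0} *
      2 ^ Module.finrank ℤ (Pool.Agent.Y682.MP (⟨1, 1, 1, -10, -10⟩ : WeierstrassCurve K)) =
        4 ^ (n.primeFactors.card - 1) :=
  sel_min Pool.Agent.Run7.h374.XK.t_LTA Run7.h890.XK.t_N2 Run7.h890.XK.t_N3 Run7.h639.XK.t_N5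
    Run7.h639.XK.t_NP Pool.Agent.Run7.h424.XK.t_COR hn h2 hr

end Run7.h135.XK
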