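import Pool.Agent.TH841.NF.ShaN
import Pool.Agent.TH841.SH.Alg2
import Pool.Agent.N969.P15.Defs

/-!
# Project XK: `X_0(15)` over the fields `ℚ(√(-n))`, the algebraic side: definitions

`E0 : y² = x (x - 9) (x - 25)`. For a curve `y² = (x - e0) (x - e1) (x - e2)` over a field `k` of
characteristic zero and `a, b ∈ k*` the cocycle `Cc W e0 e1 a b` with values in the points of order two is
`σ ↦ (T1 if σ moves √a) + (T0 if σ moves √b)`, `Ti = (ei, 0)`. It is the image of a point `P = (x, y)` under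
the Kummer map iff `x - e0 ∈ a k*²`, `x - e1 ∈ b k*²` (and `x - e2 ∈ a b k*²`), suitably read if `P` has order two.
-/

set_option autoImplicit false

open NumberField IsDedekindDomain WeierstrassCurve

namespace Run7.h135.XK

open Pool.Agent.TH841.SH.D (Pt act Gal Coch IsCoc IsCob LocTriv cob)
open Pool.Agent.TH841.NF.D (Sha IsShaCoc shaCoc)
open Pool.Agent.TH841.SH (IsR)
open Pool.Agent.N969.P15 (Qc)

/-- the curve `y² = x (x - 9) (x - 25)` -/
abbrev E0 (k : Type) [Field k] : WeierstrassCurve k := ⟨0, -34, 0, 225, 0⟩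

open Classical in
/-- the point `(e, 0)` over `L` (zero if it is not on the curve) -/
noncomputable def tp {k : Type} [Field k] (W : WeierstrassCurve k) (L : Type) [Field L] [Algebra k L]
    (e : k) : Pt W L :=
  if h : (W.baseChange L).toAffine.Nonsingular (algebraMap k L e) 0 then Affine.Point.some _ _ h else 0

/-- `σ` moves the square roots of `a` -/
def Fl {k : Type} [Field k] (a : k) (σ : Gal k) : Prop :=
  ∃ s : AlgebraicClosure k, s ^ 2 = algebraMap k (AlgebraicClosure k) a ∧ σ s ≠ s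

open Classical in
/-- the cocycle of the pair `(a, b)` -/
noncomputable def Cc {k : Type} [Field k] (W : WeierstrassCurve k) (e0 e1 a b : k) : Coch W := fun σ =>
  (if Fl a σ then tp W (AlgebraicClosure k) e1 else 0) +
    (if Fl b σ then tp W (AlgebraicClosure k) e0 else 0)

/-- `(a, b)` is trivial or comes from a point over `K` of `y² = (x - e0) (x - e1) (x - e2)` -/
def Im (K : Type) [Field K] (e0 e1 e2 a b : K) : Prop :=
  (IsSquare a ∧ IsSquare b) ∨
    ∃ x u v w : K, x - e0 = a * u ^ 2 ∧ x - e1 = b * v ^ 2 ∧ x - e2 = a * b * w ^ 2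

/-- the class of a cocycle in the Tate-Shafarevich group -/
noncomputable def cl {F : Type} [Field F] [NumberField F] {W : WeierstrassCurve F} (f : Coch W) (hf : IsShaCoc W f) :
    Sha W :=
  (QuotientAddGroup.mk (⟨f, hf⟩ : shaCoc W) : shaCoc W ⧸ (cob W).addSubgroupOf (shaCoc W))

/-- the class of the `n` -/
def Cl (n : ℕ) : Prop := Squarefree n ∧ (n % 60 = 23 ∨ n % 60 = 47)

/-- `K = ℚ(√(-n))`, `r = √(-n)` -/
structure QK (K : Type) [Field K] (n : ℕ) (r : K) : Prop where
  sq : r ^ 2 = -(n : K)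
  gen : ∀ x : K, ∃ u v : ℚ, x = u + v * r

/-- the local conditions for rational classes, `a`, `b` squarefree integers -/
structure Cond (n : ℕ) (a b : ℤ) : Prop where
  sa : Squarefree a.natAbs
  sb : Squarefree b.natAbs
  a4 : a % 4 = 1
  b2 : b % 2 = 1
  a3 : ¬ (3 : ℤ) ∣ a
  b3 : ¬ (3 : ℤ) ∣ b
  b5 : ¬ (5 : ℤ) ∣ b
  pr : ∀ p : ℕ, p.Prime → ((p : ℤ) ∣ a ∨ (p : ℤ) ∣ b) → p ∣ 5 * n

end Run7.h135.XK
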