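import Pool.Agent.Run7.h289.XK.ALG
import Pool.Agent.Run7.h919.XK.REP
import Pool.Agent.Y682.ZS

/-!
# Project XK: the 2-Selmer group of `X_0(15)` over every `ℚ(√(-n))` of the class
-/

set_option autoImplicit false

open NumberField IsDedekindDomain WeierstrassCurve

namespace Run7.h135.XK

open Pool.Agent.TH841.SH.D (Pt act Gal Coch IsCoc IsCob LocTriv cob)
open Pool.Agent.TH841.NF.D (Sha IsShaCoc shaCoc)
open Pool.Agent.TH841.SH (IsR IsX)
open Pool.Agent.Y682 (MP inc inc_inj exists_inc dl dl_apply dl_add dl_sub dl_zero dl_inc IsT fg_MP tp2 dlh)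
open Pool.Agent.Run7.h289.XK

/-- a cocycle with values of order two is a `Cc` -/
theorem exact_rep {k : Type} [Field k] [CharZero k] {W : WeierstrassCurve k} {e0 e1 e2 : k}
    (h : IsR W e0 e1 e2) (h01 : e0 ≠ e1) (h02 : e0 ≠ e2) (h12 : e1 ≠ e2) (g : Coch W)
    (hgc : IsCoc W g) (hg2 : ∀ σ, g σ + g σ = 0) :
    ∃ a b : k, a ≠ 0 ∧ b ≠ 0 ∧ g = Cc W e0 e1 a b := by
  classical
  have hgm : ∀ σ τ : Gal k, g (σ * τ) = g σ + g τ := by
    intro σ τ
    rw [hgc.2, Run7.h919.XK.act_two h h01 h02 h12 _ (hg2 τ)]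
  have key : ∀ e e' e'' : k, IsR W e e' e'' → e ≠ e' → e ≠ e'' → e' ≠ e'' →
      ∃ a : k, a ≠ 0 ∧ ∀ σ : Gal k,
        (Fl a σ ↔ ¬ IsX (W.baseChange (AlgebraicClosure k)) (algebraMap k _ e) (g σ)) := by
    intro e e' e'' he h1 h2 h3
    obtain ⟨a, ha, hk⟩ := Run7.h919.XK.kum (k := k)
      (fun σ => decide (¬ IsX (W.baseChange (AlgebraicClosure k)) (algebraMap k _ e) (g σ)))
      (hgc.1.comp fun T => decide (¬ IsX (W.baseChange (AlgebraicClosure k)) (algebraMap k _ e) T))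
      (by
        intro σ τ
        have e1 := Run7.h919.XK.pt_add2 he h1 h2 h3 (hg2 σ) (hg2 τ)
        rw [← hgm] at e1
        by_cases p : IsX (W.baseChange (AlgebraicClosure k)) (algebraMap k _ e) (g σ) <;>
          by_cases q : IsX (W.baseChange (AlgebraicClosure k)) (algebraMap k _ e) (g τ) <;>
          simp [p, q, e1])
    obtain ⟨s, hs⟩ := Run7.h919.XK.exists_sq a
    refine ⟨a, ha, fun σ => ?_⟩
    rw [Run7.h919.XK.Fl_iff s hs, Ne, hk s hs]
    simp
  obtain ⟨a, ha, hka⟩ := key e0 e1 e2 h h01 h02 h12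
  obtain ⟨b, hb, hkb⟩ := key e1 e0 e2 h.swap h01.symm h12 h02
  refine ⟨a, b, ha, hb, funext fun σ => ?_⟩
  refine Run7.h919.XK.pt_ext2 h h01 h02 h12 (hg2 σ) (Run7.h919.XK.Cc_two h h01 h02 h12 a b σ) ?_ ?_
  · rw [Run7.h919.XK.Cc_isX0 h h01 h02 h12, hka, not_not]
  · rw [Run7.h919.XK.Cc_isX1 h h01 h02 h12, hkb, not_not]

section

variable {K : Type} [Field K] [NumberField K] {n : ℕ} {r : K}

/-- the everywhere locally trivial pairs are rational -/
theorem rat_cc (hCAD : S_CAD) (hCOR : S_COR) (hSELQ : S_SELQ) (hHN : S_HN) (hLOCN : S_LOCN)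
    (hC : Cl n) (hQ : QK K n r) {α β : K} (hα : α ≠ 0) (hβ : β ≠ 0)
    (hsh : IsShaCoc (E0 K) (Cc (E0 K) 0 9 α β)) : ∃ g : GG n, ph K g = Cc (E0 K) 0 9 α β := by
  have hn0 : 0 < n := Nat.pos_of_ne_zero hC.1.ne_zero
  have hR := isR_E0 K
  obtain ⟨c1, c2, c3⟩ := hCAD K (E0 K) 0 9 25 hR (ne09 K) (ne025 K) (ne925 K)
  obtain ⟨u, v, rfl⟩ := hQ.gen α
  obtain ⟨u', v', rfl⟩ := hQ.gen β
  have h3 := hCOR K n r hC hQ u v u' v' hα hβ hsh
  have hN1 := norm_ne hn0 hQ hα
  have hN2 := norm_ne hn0 hQ hβ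
  obtain ⟨h4, h5⟩ := hSELQ _ _ hN1 hN2 h3
  obtain ⟨h6, h7⟩ := hHN n hC
  have h8 := h4.resolve_right (h7 u v hN1).1
  have h9 := h5.resolve_right (h7 u' v' hN2).2
  obtain ⟨a, g, ha, hg, hag⟩ := h6 K r hQ u v hα h8
  obtain ⟨b, g', hb, hg', hbg⟩ := h6 K r hQ u' v' hβ h9
  obtain ⟨m, c, hm, hc, ham⟩ := Pool.Agent.Run7.h289.XK.exists_sf ha
  obtain ⟨m', c', hm', hc', hbm⟩ := Pool.Agent.Run7.h289.XK.exists_sf hb
  have hm0 : (m : K) ≠ 0 := castK_ne hm
  have hm0' : (m' : K) ≠ 0 := castK_ne hm'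
  have hcK : (c : K) ≠ 0 := by exact_mod_cast hc
  have hcK' : (c' : K) ≠ 0 := by exact_mod_cast hc'
  have e1 : (u : K) + v * r = (m : K) * ((c : K) * g) ^ 2 := by
    rw [hag, ham]
    push_cast
    ring
  have e2 : (u' : K) + v' * r = (m' : K) * ((c' : K) * g') ^ 2 := by
    rw [hbg, hbm]
    push_cast
    ring
  have e3 : Cc (E0 K) 0 9 ((u : K) + v * r) ((u' : K) + v' * r) = Cc (E0 K) 0 9 (m : K) (m' : K) := by
    rw [e1, e2]
    exact c3 _ _ _ _ hm0 hm0' (mul_ne_zero hcK hg) (mul_ne_zero hcK' hg')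
  have hsh' : IsShaCoc (E0 K) (Cc (E0 K) 0 9 (m : K) (m' : K)) := by
    rw [← e3]
    exact hsh
  obtain ⟨γ, hγa, hγb⟩ := surj hC (hLOCN K n r hC hQ m m' hm hm' hsh')
  refine ⟨γ, ?_⟩
  rw [e3]
  unfold ph
  rw [hγa, hγb]

/-- the coboundaries of order two -/
def CB (W : WeierstrassCurve K) : AddSubgroup (Coch W) where
  carrier := {f | IsCob W f ∧ f + f = 0}
  zero_mem' := ⟨(cob W).zero_mem, add_zero 0⟩
  add_mem' := by
    rintro f g ⟨hf, hf2⟩ ⟨hg, hg2⟩
    refine ⟨(cob W).add_mem hf hg, ?_⟩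
    have e : f + g + (f + g) = (f + f) + (g + g) := by abel
    rw [e, hf2, hg2, add_zero]
  neg_mem' := by
    rintro f ⟨hf, hf2⟩
    refine ⟨(cob W).neg_mem hf, ?_⟩
    have e : -f + -f = -(f + f) := by abel
    rw [e, hf2, neg_zero]

/-- the points whose double is rational -/
def HH (W : WeierstrassCurve K) : AddSubgroup (Pt W (AlgebraicClosure K)) where
  carrier := {Q | dl (Q + Q) = 0}
  zero_mem' := by
    change dl (0 + 0) = 0
    rw [add_zero, dl_zero]
  add_mem' := by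
    intro P Q hP hQ
    change dl (P + Q + (P + Q)) = 0
    have e : P + Q + (P + Q) = (P + P) + (Q + Q) := by abel
    rw [e, dl_add]
    change dl (P + P) = 0 at hP
    change dl (Q + Q) = 0 at hQ
    rw [hP, hQ, add_zero]
  neg_mem' := by
    intro P hP
    change dl (P + P) = 0 at hP
    change dl (-P + -P) = 0
    have e : -P + -P = 0 - (P + P) := by abel
    rw [e, dl_sub, hP, dl_zero, sub_zero]

/-- the double as a rational point -/
noncomputable def dbl (W : WeierstrassCurve K) : HH W →+ MP W where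
  toFun Q := Classical.choose (exists_inc Q.2)
  map_zero' := by
    apply inc_inj W
    rw [Classical.choose_spec (exists_inc (0 : HH W).2), map_zero]
    change (0 : Pt W (AlgebraicClosure K)) + 0 = 0
    rw [add_zero]
  map_add' P Q := by
    apply inc_inj W
    rw [Classical.choose_spec (exists_inc (P + Q).2), map_add,
      Classical.choose_spec (exists_inc P.2), Classical.choose_spec (exists_inc Q.2)]
    change P.1 + Q.1 + (P.1 + Q.1) = (P.1 + P.1) + (Q.1 + Q.1)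
    abel

theorem inc_dbl (W : WeierstrassCurve K) (Q : HH W) : inc W (dbl W Q) = Q.1 + Q.1 :=
  Classical.choose_spec (exists_inc Q.2)

/-- the coboundary -/
noncomputable def cbd (W : WeierstrassCurve K) : HH W →+ CB W where
  toFun Q := ⟨dl Q.1, ⟨⟨Q.1, fun _ => rfl⟩, by
    rw [← dl_add]
    exact Q.2⟩⟩
  map_zero' := Subtype.ext dl_zero
  map_add' P Q := Subtype.ext (dl_add P.1 Q.1)

variable {W : WeierstrassCurve K} {e0 e1 e2 : K}

/-- the points of order two are rational -/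
theorem two_rat (h : IsR W e0 e1 e2) (h01 : e0 ≠ e1) (h02 : e0 ≠ e2) (h12 : e1 ≠ e2)
    {T : Pt W (AlgebraicClosure K)} (hT : T + T = 0) : dl T = 0 := by
  funext σ
  rw [dl_apply, Run7.h919.XK.act_two h h01 h02 h12 _ hT, sub_self]
  rfl

/-- the number of the coboundaries of order two -/
theorem card_CB (h : IsR W e0 e1 e2) (h01 : e0 ≠ e1) (h02 : e0 ≠ e2) (h12 : e1 ≠ e2) :
    Nat.card (CB W) = Nat.card (MP W ⧸ (zsmulAddGroupHom (α := MP W) 2).range) := by
  classical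
  let q : HH W →+ MP W ⧸ (zsmulAddGroupHom (α := MP W) 2).range :=
    (QuotientAddGroup.mk' _).comp (dbl W)
  have hq : Function.Surjective q := by
    intro x
    obtain ⟨P, rfl⟩ := QuotientAddGroup.mk'_surjective _ x
    obtain ⟨Q, hQ⟩ : ∃ Q : Pt W (AlgebraicClosure K), inc W P = Q + Q := by
      let _ : DecidableEq (AlgebraicClosure K) := Classical.decEq _
      exact (Run7.h919.XK.base h _).div two_ne_zero (Run7.h919.XK.alg_ne h01)
        (Run7.h919.XK.alg_ne h02) (Run7.h919.XK.alg_ne h12) _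
    have hQ' : Q ∈ HH W := by
      change dl (Q + Q) = 0
      rw [← hQ, dl_inc]
    refine ⟨⟨Q, hQ'⟩, ?_⟩
    have e : dbl W ⟨Q, hQ'⟩ = P := by
      apply inc_inj W
      rw [inc_dbl, hQ]
    show QuotientAddGroup.mk' _ (dbl W ⟨Q, hQ'⟩) = _
    rw [e]
  have hc : Function.Surjective (cbd W) := by
    rintro ⟨f, ⟨Q, hQ⟩, hf2⟩
    have e : dl Q = f := by
      funext σ
      rw [dl_apply]
      exact (hQ σ).symm
    have hQ' : Q ∈ HH W := by
      change dl (Q + Q) = 0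
      rw [dl_add, e, hf2]
    exact ⟨⟨Q, hQ'⟩, Subtype.ext e⟩
  have hker : q.ker = (cbd W).ker := by
    ext Q
    rw [AddMonoidHom.mem_ker, AddMonoidHom.mem_ker]
    have e1 : q Q = 0 ↔ dbl W Q ∈ (zsmulAddGroupHom (α := MP W) 2).range :=
      QuotientAddGroup.eq_zero_iff _
    have e2 : cbd W Q = 0 ↔ dl Q.1 = 0 := by
      rw [Subtype.ext_iff]
      exact Iff.rfl
    rw [e1, e2]
    constructor
    · rintro ⟨R, hR⟩
      have hR' : R + R = dbl W Q := by
        rw [← hR]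
        show R + R = (2 : ℤ) • R
        rw [two_zsmul]
      have h3 : (Q.1 - inc W R) + (Q.1 - inc W R) = 0 := by
        have h4 := inc_dbl W Q
        rw [← hR', map_add] at h4
        have h5 : (Q.1 - inc W R) + (Q.1 - inc W R) = (Q.1 + Q.1) - (inc W R + inc W R) := by abel
        rw [h5, h4, sub_self]
      have h4 := two_rat h h01 h02 h12 h3
      rw [dl_sub, dl_inc, sub_zero] at h4
      exact h4
    · intro h3
      obtain ⟨R, hR⟩ := exists_inc h3
      refine ⟨R, ?_⟩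
      show (2 : ℤ) • R = _
      apply inc_inj W
      rw [inc_dbl, two_zsmul, map_add, hR]
  have h1 : Nat.card (CB W) = Nat.card (HH W ⧸ (cbd W).ker) :=
    (Nat.card_congr (QuotientAddGroup.quotientKerEquivOfSurjective _ hc).toEquiv).symm
  have h2 : Nat.card (MP W ⧸ (zsmulAddGroupHom (α := MP W) 2).range) = Nat.card (HH W ⧸ q.ker) :=
    (Nat.card_congr (QuotientAddGroup.quotientKerEquivOfSurjective _ hq).toEquiv).symm
  rw [h1, h2, hker]

/-- the rational points of order two -/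
theorem card_two {A B : K} (hT : IsT W A B) (h : IsR W e0 e1 e2) (h01 : e0 ≠ e1) (h02 : e0 ≠ e2)
    (h12 : e1 ≠ e2) : Nat.card (zsmulAddGroupHom (α := MP W) 2).ker = 4 := by
  rw [← Pool.Agent.Y682.card_tp2 hT]
  have key : ∀ P : MP W, P ∈ (zsmulAddGroupHom (α := MP W) 2).ker ↔ inc W P ∈ tp2 W := by
    intro P
    rw [AddMonoidHom.mem_ker]
    change (2 : ℤ) • P = 0 ↔ inc W P + inc W P = 0
    rw [two_zsmul, ← map_add]
    exact (map_eq_zero_iff _ (inc_inj W)).symm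
  refine Nat.card_congr (Equiv.ofBijective (fun P => ⟨inc W P.1, (key P.1).1 P.2⟩) ⟨?_, ?_⟩)
  · intro P Q hPQ
    exact Subtype.ext (inc_inj W (Subtype.ext_iff.1 hPQ))
  · rintro ⟨T, hT'⟩
    obtain ⟨P, hP⟩ := exists_inc (two_rat h h01 h02 h12 hT')
    refine ⟨⟨P, (key P).2 (by rw [hP]; exact hT')⟩, Subtype.ext hP⟩

/-- a square, if its roots are not moved -/
theorem sq_of_fl {k : Type} [Field k] [CharZero k] {a : k} (h : ∀ σ : Gal k, ¬ Fl a σ) :
    IsSquare a := by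
  obtain ⟨s, hs⟩ := Run7.h919.XK.exists_sq a
  obtain ⟨y, hy⟩ := Pool.Agent.TH841.SH.fix_mem s fun σ => by
    by_contra hne
    exact h σ ((Run7.h919.XK.Fl_iff s hs σ).2 hne)
  refine ⟨y, ?_⟩
  apply (algebraMap k (AlgebraicClosure k)).injective
  rw [map_mul, hy, ← pow_two, hs]

theorem not_fl {k : Type} [Field k] [CharZero k] {a s : k} (h : s ^ 2 = a) (σ : Gal k) :
    ¬ Fl a σ := by
  rw [Run7.h919.XK.Fl_iff (algebraMap k _ s) (by rw [← map_pow, h])]
  exact not_not.2 (AlgEquiv.commutes σ s)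

theorem ph_zero (hC : Cl n) (hQ : QK K n r) (g : GG n) : ph K g = 0 ↔
    (fa g, fb g) ∈ (({1, -(n : ℤ)} : Finset ℤ) ×ˢ ({1, -(n : ℤ)} : Finset ℤ)) := by
  have hn0 : 0 < n := Nat.pos_of_ne_zero hC.1.ne_zero
  have hR := isR_E0 K
  have h01 := ne09 K
  have h02 := ne025 K
  have h12 := ne925 K
  rw [Finset.mem_product]
  simp only [Finset.mem_insert, Finset.mem_singleton]
  constructor
  · intro h0
    have h1 : ∀ σ : Gal K, Cc (E0 K) 0 9 ((fa g : ℤ) : K) ((fb g : ℤ) : K) σ = 0 := fun σ =>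
      congrFun h0 σ
    constructor
    · refine sqA hC hQ (fa_sf g) (sq_of_fl fun σ => ?_)
      rw [← Run7.h919.XK.Cc_isX0 hR h01 h02 h12 ((fa g : ℤ) : K) ((fb g : ℤ) : K), h1]
      exact Pool.Agent.TH841.SH.isX_zero _
    · refine sqA hC hQ (fb_sf g) (sq_of_fl fun σ => ?_)
      rw [← Run7.h919.XK.Cc_isX1 hR h01 h02 h12 ((fa g : ℤ) : K) ((fb g : ℤ) : K), h1]
      exact Pool.Agent.TH841.SH.isX_zero _
  · rintro ⟨h1, h2⟩
    obtain ⟨s, -, hs⟩ := rt_one hQ hn0 h1
    obtain ⟨t, -, ht⟩ := rt_one hQ hn0 h2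
    funext σ
    unfold ph Cc
    rw [if_neg (not_fl hs σ), if_neg (not_fl ht σ)]
    exact add_zero 0

theorem card_N (hC : Cl n) (hQ : QK K n r) : Nat.card {g : GG n // ph K g = 0} = 4 := by
  have hn := hC.2
  have hn0 : 0 < n := Nat.pos_of_ne_zero hC.1.ne_zero
  have hA : (({1, -(n : ℤ)} : Finset ℤ)).card = 2 := by
    rw [Finset.card_insert_of_notMem, Finset.card_singleton]
    simp only [Finset.mem_singleton]
    omega
  have hcond : ∀ p ∈ (({1, -(n : ℤ)} : Finset ℤ) ×ˢ ({1, -(n : ℤ)} : Finset ℤ)),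
      Cond n p.1 p.2 := by
    rintro ⟨a, b⟩ hab
    rw [Finset.mem_product] at hab
    simp only [Finset.mem_insert, Finset.mem_singleton] at hab
    obtain ⟨ha, hb⟩ := hab
    have ha' : a.natAbs = 1 ∨ a.natAbs = n := by omega
    have hb' : b.natAbs = 1 ∨ b.natAbs = n := by omega
    constructor
    · show Squarefree a.natAbs
      rcases ha' with h | h <;> rw [h]
      · exact squarefree_one
      · exact hC.1
    · show Squarefree b.natAbs
      rcases hb' with h | h <;> rw [h]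
      · exact squarefree_one
      · exact hC.1
    · show a % 4 = 1
      omega
    · show b % 2 = 1
      omega
    · show ¬ (3 : ℤ) ∣ a
      omega
    · show ¬ (3 : ℤ) ∣ b
      omega
    · show ¬ (5 : ℤ) ∣ b
      omega
    · rintro p hp (h | h)
      · have h5 : p ∣ a.natAbs := Int.natCast_dvd.1 h
        rcases ha' with h6 | h6 <;> rw [h6] at h5
        · exact absurd (Nat.dvd_one.1 h5) hp.one_lt.ne'
        · exact h5.mul_left 5
      · have h5 : p ∣ b.natAbs := Int.natCast_dvd.1 h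
        rcases hb' with h6 | h6 <;> rw [h6] at h5
        · exact absurd (Nat.dvd_one.1 h5) hp.one_lt.ne'
        · exact h5.mul_left 5
  have e : Nat.card {g : GG n // ph K g = 0} = Nat.card ((({1, -(n : ℤ)} : Finset ℤ) ×ˢ
      ({1, -(n : ℤ)} : Finset ℤ) : Finset (ℤ × ℤ))) := by
    refine Nat.card_congr (Equiv.ofBijective
      (fun g => ⟨(fa (g : GG n), fb (g : GG n)), (ph_zero hC hQ g).1 g.2⟩) ⟨?_, ?_⟩)
    · intro g g' h
      have h5 := Prod.ext_iff.1 (Subtype.ext_iff.1 h)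
      exact Subtype.ext (inj _ _ h5.1 h5.2)
    · rintro ⟨⟨a, b⟩, hab⟩
      obtain ⟨g, hga, hgb⟩ := surj hC (hcond _ hab)
      refine ⟨⟨g, (ph_zero hC hQ g).2 ?_⟩, ?_⟩
      · rw [hga, hgb]
        exact hab
      · exact Subtype.ext (Prod.ext hga hgb)
  rw [e, Nat.card_eq_fintype_card, Fintype.card_coe, Finset.card_product, hA]

theorem card_GG (hC : Cl n) : Nat.card (GG n) = 16 * 4 ^ (n.primeFactors.card - 1) := by
  have hn := hC.2
  have hn0 : n ≠ 0 := hC.1.ne_zero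
  have h4 : (5 * n).primeFactors.card = n.primeFactors.card + 1 := by
    have h5 : Nat.Coprime 5 n := by
      rw [Nat.Prime.coprime_iff_not_dvd (by norm_num)]
      omega
    rw [h5.primeFactors_mul, Finset.card_union_of_disjoint h5.disjoint_primeFactors,
      Nat.Prime.primeFactors (by norm_num), Finset.card_singleton, add_comm]
  have h6 : 0 < n.primeFactors.card := by
    rw [Finset.card_pos, Nat.nonempty_primeFactors]
    omega
  have h7 : Nat.card (GG n) = 2 ^ (n.primeFactors.card + 1) * (2 ^ n.primeFactors.card * 2) := by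
    rw [Nat.card_prod, Nat.card_prod, Nat.card_fun, Nat.card_fun, Nat.card_zmod,
      Nat.card_eq_fintype_card, Nat.card_eq_fintype_card, Fintype.card_coe, Fintype.card_coe, h4]
  rw [h7]
  obtain ⟨m, hm⟩ := Nat.exists_eq_add_of_lt h6
  rw [zero_add] at hm
  rw [hm, Nat.add_sub_cancel]
  have e4 : (4 : ℕ) = 2 ^ 2 := by norm_num
  rw [e4, ← pow_mul]
  ring

/-- **The 2-Selmer group over every `K = ℚ(√(-n))` of the class.** -/
theorem t_SELK (hCAD : S_CAD) (hCOR : S_COR) (hSELQ : S_SELQ) (hHN : S_HN) (hLOCN : S_LOCN)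
    (hLOCS : S_LOCS) (hRAT : S_RAT) (hC : Cl n) (hQ : QK K n r) :
    Nat.card {x : Sha (E0 K) // 2 • x = 0} * 2 ^ Module.finrank ℤ (MP (E0 K)) =
      4 ^ (n.primeFactors.card - 1) := by
  classical
  have hR := isR_E0 K
  have h01 := ne09 K
  have h02 := ne025 K
  have h12 := ne925 K
  have hT : IsT (E0 K) (-34 : K) 225 := by
    refine ⟨rfl, rfl, rfl, rfl, rfl, by norm_num, by norm_num⟩
  have hsh : ∀ g : GG n, IsShaCoc (E0 K) (ph K g) := fun g =>
    hLOCS K n r hC hQ _ _ (cond_of hC g)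
  let φ : GG n →+ Coch (E0 K) := AddMonoidHom.mk' (ph K) (ph_add hCAD)
  have hφ : ∀ g, φ g = ph K g := fun _ => rfl
  let ψ : GG n →+ Sha (E0 K) := AddMonoidHom.mk' (fun g => cl (ph K g) (hsh g)) (by
    intro g g'
    rw [← cl_add (hsh g) (hsh g') (sha_add (hsh g) (hsh g'))]
    rw [cl_eq, ph_add hCAD, sub_self]
    exact (cob (E0 K)).zero_mem)
  have hψ : ∀ g, ψ g = cl (ph K g) (hsh g) := fun _ => rfl
  have hrange : ∀ x : Sha (E0 K), 2 • x = 0 ↔ x ∈ ψ.range := by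
    intro x
    constructor
    · intro h2
      obtain ⟨a, b, hsa, hsb, hf, rfl⟩ := hRAT K n r hC hQ x h2
      obtain ⟨g, hga, hgb⟩ := surj hC (hLOCN K n r hC hQ a b hsa hsb hf)
      refine ⟨g, ?_⟩
      rw [hψ, cl_eq]
      have e : ph K g = Cc (E0 K) 0 9 (a : K) (b : K) := by
        unfold ph
        rw [hga, hgb]
      rw [e, sub_self]
      exact (cob (E0 K)).zero_mem
    · rintro ⟨g, rfl⟩
      rw [two_nsmul, ← map_add, two_GG, map_zero]
  have h1 : Nat.card {x : Sha (E0 K) // 2 • x = 0} = Nat.card ψ.range :=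
    Nat.card_congr (Equiv.subtypeEquivRight hrange)
  have h2 : Nat.card ψ.ker * Nat.card ψ.range = Nat.card (GG n) := by
    rw [← AddSubgroup.index_ker]
    exact AddSubgroup.card_mul_index _
  have hph2 : ∀ g : GG n, ph K g + ph K g = 0 := by
    intro g
    rw [← hφ, ← map_add, two_GG, map_zero]
  have hmem : ∀ g : GG n, g ∈ ψ.ker → ph K g ∈ CB (E0 K) := by
    intro g hg
    rw [AddMonoidHom.mem_ker, hψ, cl_eq_zero] at hg
    exact ⟨hg, hph2 g⟩
  let ρ : ψ.ker →+ CB (E0 K) :=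
    { toFun := fun g => ⟨ph K g.1, hmem g.1 g.2⟩
      map_zero' := Subtype.ext (map_zero φ)
      map_add' := fun g g' => Subtype.ext (ph_add hCAD g.1 g'.1) }
  have hρ : Function.Surjective ρ := by
    rintro ⟨f, hf, hf2⟩
    have hco : IsShaCoc (E0 K) f := by
      obtain ⟨Q, hQ'⟩ := hf
      have e : f = dl Q := funext fun σ => hQ' σ
      rw [e]
      exact Pool.Agent.Y682.dl_sha Q
    obtain ⟨α, β, hα, hβ, e⟩ := exact_rep hR h01 h02 h12 f hco.1 fun σ => congrFun hf2 σ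
    have hco' := hco
    rw [e] at hco'
    obtain ⟨g, hg⟩ := rat_cc hCAD hCOR hSELQ hHN hLOCN hC hQ hα hβ hco'
    have hg' : ph K g = f := by rw [hg, e]
    refine ⟨⟨g, ?_⟩, Subtype.ext hg'⟩
    rw [AddMonoidHom.mem_ker, hψ, cl_eq_zero, hg']
    exact hf
  have h3 : Nat.card ρ.ker * Nat.card (CB (E0 K)) = Nat.card ψ.ker := by
    rw [AddSubgroup.card_eq_card_quotient_mul_card_addSubgroup ρ.ker, mul_comm]
    congr 1
    exact (Nat.card_congr (QuotientAddGroup.quotientKerEquivOfSurjective ρ hρ).toEquiv).symm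
  have h4 : Nat.card ρ.ker = 4 := by
    rw [← card_N (K := K) hC hQ]
    refine Nat.card_congr (Equiv.ofBijective (fun g => ⟨g.1.1, ?_⟩) ⟨?_, ?_⟩)
    · exact Subtype.ext_iff.1 (AddMonoidHom.mem_ker.1 g.2)
    · intro g g' h
      have h' := congrArg (fun z : {g : GG n // ph K g = 0} => z.1) h
      exact Subtype.ext (Subtype.ext h')
    · rintro ⟨g, hg⟩
      have hk : g ∈ ψ.ker := by
        rw [AddMonoidHom.mem_ker, hψ, cl_eq_zero, hg]
        exact (cob (E0 K)).zero_mem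
      exact ⟨⟨⟨g, hk⟩, AddMonoidHom.mem_ker.2 (Subtype.ext hg)⟩, rfl⟩
  have hfg : Module.Finite ℤ (MP (E0 K)) := fg_MP hT
  have h5 := card_CB hR h01 h02 h12
  have h6 := Pool.Agent.TeamU.card_quot_two (MP (E0 K))
  have h7 := card_two hT hR h01 h02 h12
  rw [h6, h7] at h5
  have h8 := card_GG hC
  rw [h4, h5] at h3
  rw [h1]
  rw [h8, ← h3] at h2
  have h9 : 16 * (Nat.card ψ.range * 2 ^ Module.finrank ℤ (MP (E0 K))) =
      16 * 4 ^ (n.primeFactors.card - 1) := by
    rw [← h2]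
    ring
  exact Nat.eq_of_mul_eq_mul_left (by norm_num) h9

end

end Run7.h135.XK
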