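import Pool.Agent.Run7.h135.XK.LTB
import Pool.Agent.Run7.h376.XK.CAD
import Pool.Agent.Run7.h376.XK.LTG
import Pool.Agent.Run7.h376.XK.HN
import Pool.Agent.Run7.h374.XK.UP
import Pool.Agent.Run7.h374.XK.FF
import Pool.Agent.Run7.h919.XK.REP
import Pool.Agent.Run7.h377.XK.SHQ
import Pool.Agent.Run7.h424.XK.KIL
import Pool.Agent.Run7.h238.XK.SELQ
import Pool.Agent.Run7.h238.XK.LOCN
import Pool.Agent.Run7.h238.XK.LOCS
import Pool.Agent.Run7.h741.XK.U23
import Pool.Agent.Run7.h741.XK.PL5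
import Pool.Agent.Run7.h741.XK.PL3
import Pool.Agent.Run7.h741.XK.Qf
import Pool.Agent.Run7.h289.XK.RAT
import Pool.Agent.Run7.h289.XK.KER
import Pool.Agent.Run7.h289.XK.ALG
import Pool.Agent.Run7.h834.XK.ISO
import Pool.Agent.Run7.h135.XK.SELK

/-!
# Project XK: the algebraic side, assembly
-/

set_option autoImplicit false

open NumberField IsDedekindDomain WeierstrassCurve

namespace Run7.h135.XK

open Pool.Agent.TH841.NF.D (Sha)
open Pool.Agent.N969.P15 (Qc)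

theorem alg_of (hLTA : S_LTA) (hN2 : S_N2) (hN3 : S_N3) (hN5 : S_N5) (hNP : S_NP) (hCOR : S_COR)
    (hTOR : S_TOR) : S_ALG := by
  have hCAD := Run7.h376.XK.t_CAD
  have hLTB := t_LTB
  have hLTG := Run7.h376.XK.t_LTG hLTA hLTB
  have hREP := Run7.h919.XK.t_REP
  have hHN := Run7.h376.XK.t_HN
  have hSELQ := Run7.h238.XK.t_SELQ hCAD hLTB hN2 hN3 hN5 hNP
  have hSHQ := Run7.h377.XK.t_SHQ hCAD hREP hLTG hSELQ
  have hKIL := Pool.Agent.Run7.h424.XK.t_KIL hSHQ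
  have hPLU := Run7.h741.XK.t_PLU
  have hUP := Pool.Agent.Run7.h374.XK.t_UP Pool.Agent.Run7.h374.XK.t_FF
  have hLOCN := Run7.h238.XK.t_LOCN hLTB hN2 hN3 hN5 hNP Run7.h741.XK.t_PLV Run7.h741.XK.t_PL3
  have hLOCS := Run7.h238.XK.t_LOCS hCAD hLTA Run7.h741.XK.t_U23 hUP hPLU
    (Run7.h741.XK.t_PL5 hPLU) Run7.h741.XK.t_PLC
  have hRAT := Pool.Agent.Run7.h289.XK.t_RAT hCAD hREP hCOR hSELQ hHN
  have hKER := Pool.Agent.Run7.h289.XK.t_KER hLTG hTOR
  exact Pool.Agent.Run7.h289.XK.t_ALG hCAD hLOCS hLOCN hRAT hKIL hTOR hKER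

/-- from the degree -/
theorem qk_of {K : Type} [Field K] [NumberField K] {n : ℕ} (hn : Cl n)
    (h2 : Module.finrank ℚ K = 2) {r : K} (hr : r ^ 2 = -(n : K)) : QK K n r := by
  refine ⟨hr, fun x => ?_⟩
  have hn0 : 0 < n := Nat.pos_of_ne_zero hn.1.ne_zero
  have hli : LinearIndependent ℚ ![(1 : K), r] := by
    rw [LinearIndependent.pair_iff]
    intro s t hst
    rw [Rat.smul_def, Rat.smul_def, mul_one] at hst
    by_cases ht : t = 0
    · subst ht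
      rw [Rat.cast_zero, zero_mul, add_zero] at hst
      exact ⟨by exact_mod_cast hst, rfl⟩
    · exfalso
      have h3 : (s : K) = -(t * r) := by linear_combination hst
      have h4 : ((s ^ 2 : ℚ) : K) = ((-(n : ℚ) * t ^ 2 : ℚ) : K) := by
        push_cast
        rw [h3]
        linear_combination (t : K) ^ 2 * hr
      have h5 : s ^ 2 = -(n : ℚ) * t ^ 2 := by exact_mod_cast h4
      have h6 : (0 : ℚ) < (n : ℚ) * t ^ 2 := by positivity
      nlinarith [sq_nonneg s]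
  have hsp := hli.span_eq_top_of_card_eq_finrank (by rw [h2]; rfl)
  have hx : x ∈ Submodule.span ℚ (Set.range ![(1 : K), r]) := by
    rw [hsp]
    trivial
  rw [Matrix.range_cons, Matrix.range_cons, Matrix.range_empty, Set.union_empty,
    Set.singleton_union, Submodule.mem_span_pair] at hx
  obtain ⟨u, v, huv⟩ := hx
  refine ⟨u, v, ?_⟩
  rw [← huv, Rat.smul_def, Rat.smul_def, mul_one]

/-- the algebraic side for the minimal equation -/
theorem alg_min (h : S_ALG) {K : Type} [Field K] [NumberField K] {n : ℕ} (hn : Cl n) (hq : Qc n)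
    (h2 : Module.finrank ℚ K = 2) (hr : ∃ r : K, r ^ 2 = -(n : K)) :
    Nat.card (⟨1, 1, 1, -10, -10⟩ : WeierstrassCurve K).toAffine.Point = 8 ∧
    (∀ (k : ℕ) (x : Sha (⟨1, 1, 1, -10, -10⟩ : WeierstrassCurve K)), 2 ^ k • x = 0 → 2 • x = 0) ∧
    Nat.card {x : Sha (⟨1, 1, 1, -10, -10⟩ : WeierstrassCurve K) // ∃ k : ℕ, 2 ^ k • x = 0} =
      4 ^ (n.primeFactors.card - 1) := by
  obtain ⟨r, hr⟩ := hr
  obtain ⟨a1, a2, a3⟩ := h K n r hn hq (qk_of hn h2 hr)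
  obtain ⟨⟨e⟩, i2⟩ := Run7.h834.XK.t_ISO K
  refine ⟨i2.trans a1, fun k x hx => ?_, ?_⟩
  · apply e.injective
    rw [map_nsmul, map_zero]
    apply a2 k
    rw [← map_nsmul, hx, map_zero]
  · rw [← a3]
    refine Nat.card_congr (e.toEquiv.subtypeEquiv fun x => ?_)
    refine exists_congr fun k => ?_
    constructor
    · intro hx
      show 2 ^ k • e x = 0
      rw [← map_nsmul, hx, map_zero]
    · intro hx
      apply e.injective
      rw [map_nsmul, map_zero]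
      exact hx

/-- the 2-Selmer group for the minimal equation -/
theorem sel_min (hLTA : S_LTA) (hN2 : S_N2) (hN3 : S_N3) (hN5 : S_N5) (hNP : S_NP) (hCOR : S_COR)
    {K : Type} [Field K] [NumberField K] {n : ℕ} (hn : Cl n)
    (h2 : Module.finrank ℚ K = 2) (hr : ∃ r : K, r ^ 2 = -(n : K)) :
    Module.Finite ℤ (Pool.Agent.Y682.MP (⟨1, 1, 1, -10, -10⟩ : WeierstrassCurve K)) ∧
    Nat.card {x : Sha (⟨1, 1, 1, -10, -10⟩ : WeierstrassCurve K) // 2 • x = 0} *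
      2 ^ Module.finrank ℤ (Pool.Agent.Y682.MP (⟨1, 1, 1, -10, -10⟩ : WeierstrassCurve K)) =
        4 ^ (n.primeFactors.card - 1) := by
  obtain ⟨r, hr⟩ := hr
  have hQ := qk_of hn h2 hr
  have hCAD := Run7.h376.XK.t_CAD
  have hLTB := t_LTB
  have hREP := Run7.h919.XK.t_REP
  have hHN := Run7.h376.XK.t_HN
  have hSELQ := Run7.h238.XK.t_SELQ hCAD hLTB hN2 hN3 hN5 hNP
  have hPLU := Run7.h741.XK.t_PLU
  have hUP := Pool.Agent.Run7.h374.XK.t_UP Pool.Agent.Run7.h374.XK.t_FF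
  have hLOCN := Run7.h238.XK.t_LOCN hLTB hN2 hN3 hN5 hNP Run7.h741.XK.t_PLV Run7.h741.XK.t_PL3
  have hLOCS := Run7.h238.XK.t_LOCS hCAD hLTA Run7.h741.XK.t_U23 hUP hPLU
    (Run7.h741.XK.t_PL5 hPLU) Run7.h741.XK.t_PLC
  have hRAT := Pool.Agent.Run7.h289.XK.t_RAT hCAD hREP hCOR hSELQ hHN
  have h3 := t_SELK (K := K) hCAD hCOR hSELQ hHN hLOCN hLOCS hRAT hn hQ
  have hT : Pool.Agent.Y682.IsT (E0 K) (-34 : K) 225 := by
    refine ⟨rfl, rfl, rfl, rfl, rfl, by norm_num, by norm_num⟩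
  have hfg : Module.Finite ℤ (Pool.Agent.Y682.MP (E0 K)) := Pool.Agent.Y682.fg_MP hT
  obtain ⟨⟨e⟩, -⟩ := Run7.h834.XK.t_ISO K
  have hp : Nonempty (Pool.Agent.Y682.MP (⟨1, 1, 1, -10, -10⟩ : WeierstrassCurve K) ≃+
      Pool.Agent.Y682.MP (E0 K)) :=
    ⟨@Pool.Agent.Y700.VR.equiv K _ (Classical.decEq K) _ _ _ _ _ _ (Run7.h834.XK.vr15 K)
      (Run7.h834.XK.delta15 K)⟩
  obtain ⟨e'⟩ := hp
  refine ⟨Module.Finite.equiv e'.symm.toIntLinearEquiv, ?_⟩
  rw [e'.toIntLinearEquiv.finrank_eq, ← h3]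
  congr 1
  refine Nat.card_congr (e.toEquiv.subtypeEquiv fun x => ?_)
  constructor
  · intro hx
    show 2 • e x = 0
    rw [← map_nsmul, hx, map_zero]
  · intro hx
    apply e.injective
    rw [map_nsmul, map_zero]
    exact hx

end Run7.h135.XK
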