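import Pool.Agent.Run7.h135.XK.Stm
import Pool.Agent.TH841.SH.Kum

/-!
# Project XK: general lemmas on the cocycles `Cc`
-/

set_option autoImplicit false

open WeierstrassCurve

namespace Run7.h135.XK

open scoped Classical

open Pool.Agent.TH841.SH.D (Pt act Gal Coch IsCoc IsCob LocTriv cob)
open Pool.Agent.TH841.SH (IsR IsX gf isX_some isX_zero not_isX fix_mem)

section

variable {k : Type} [Field k] {W : WeierstrassCurve k} {e0 e1 e2 : k}

lemma base (h : IsR W e0 e1 e2) (L : Type) [Field L] [Algebra k L] :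
    IsR (W.baseChange L) (algebraMap k L e0) (algebraMap k L e1) (algebraMap k L e2) where
  h1 := by
    show algebraMap k L W.a₁ = 0
    rw [h.h1, map_zero]
  h2 := by
    show algebraMap k L W.a₂ = _
    rw [h.h2, map_neg, map_add, map_add]
  h3 := by
    show algebraMap k L W.a₃ = 0
    rw [h.h3, map_zero]
  h4 := by
    show algebraMap k L W.a₄ = _
    rw [h.h4, map_add, map_add, map_mul, map_mul, map_mul]
  h6 := by
    show algebraMap k L W.a₆ = _
    rw [h.h6, map_neg, map_mul, map_mul]

lemma act_some (W : WeierstrassCurve k) {F L : Type} [Field F] [Field L] [Algebra k F]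
    [Algebra k L] (φ : F →ₐ[k] L) {x y : F} (h : (W.baseChange F).toAffine.Nonsingular x y) :
    act W φ (.some x y h) =
      .some (φ x) (φ y) ((Affine.baseChange_nonsingular W φ.injective ..).mpr h) := rfl

lemma act_inj (W : WeierstrassCurve k) {F L : Type} [Field F] [Field L] [Algebra k F]
    [Algebra k L] (φ : F →ₐ[k] L) : Function.Injective (act W φ) :=
  Affine.Point.map_injective φ

lemma act_act (W : WeierstrassCurve k) {F L M : Type} [Field F] [Field L] [Field M] [Algebra k F]
    [Algebra k L] [Algebra k M] (φ : F →ₐ[k] L) (ψ : L →ₐ[k] M) (P : Pt W F) :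
    act W ψ (act W φ P) = act W (ψ.comp φ) P :=
  Affine.Point.map_map φ ψ P

lemma act_isX (W : WeierstrassCurve k) {F L : Type} [Field F] [Field L] [Algebra k F]
    [Algebra k L] (φ : F →ₐ[k] L) (e : k) (T : Pt W F) :
    IsX (W.baseChange L) (algebraMap k L e) (act W φ T) ↔
      IsX (W.baseChange F) (algebraMap k F e) T := by
  rcases T with _ | ⟨x, y, h⟩
  · exact ⟨fun _ => Or.inl rfl, fun _ => Or.inl rfl⟩
  · by_cases hx : x = algebraMap k F e
    · subst hx
      refine ⟨fun _ => isX_some h, fun _ => ?_⟩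
      rw [act_some]
      right
      refine ⟨φ y, ?_, ?_⟩
      · have := (Affine.baseChange_nonsingular W φ.injective ..).mpr h
        rwa [φ.commutes] at this
      · congr 1
        exact φ.commutes e
    · refine ⟨fun h' => absurd h' ?_, fun h' => absurd h' (not_isX h hx)⟩
      rw [act_some]
      apply not_isX
      intro h2
      apply hx
      apply φ.injective
      show φ x = φ (algebraMap k F e)
      rw [h2, φ.commutes]

/-- `gf` and the action -/
lemma act_gf {a b c : k} {L : Type} [Field L]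
    [Algebra k L] (φ : L →ₐ[k] L) (R : Pt W L) :
    φ (gf (W.baseChange L) (algebraMap k L a) (algebraMap k L b) (algebraMap k L c) R) =
      gf (W.baseChange L) (algebraMap k L a) (algebraMap k L b) (algebraMap k L c)
        (act W φ R) := by
  rcases R with _ | ⟨u, v, h⟩
  · exact map_zero φ
  · rw [act_some]
    show φ (((u - algebraMap k L a) ^ 2 - (algebraMap k L a - algebraMap k L b) *
      (algebraMap k L a - algebraMap k L c)) / (2 * v)) = ((φ u - algebraMap k L a) ^ 2 -
      (algebraMap k L a - algebraMap k L b) * (algebraMap k L a - algebraMap k L c)) / (2 * φ v)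
    simp only [map_div₀, map_sub, map_pow, map_mul, map_ofNat, AlgHom.commutes]

section tp

variable (h : IsR W e0 e1 e2) (h2 : (2 : k) ≠ 0) (h01 : e0 ≠ e1) (h02 : e0 ≠ e2) (h12 : e1 ≠ e2)
  (L : Type) [Field L] [Algebra k L]

include h h2 h01 h02 h12 in
lemma tp_ns : (W.baseChange L).toAffine.Nonsingular (algebraMap k L e0) 0 := by
  have hinj : Function.Injective (algebraMap k L) := (algebraMap k L).injective
  have h2L : (2 : L) ≠ 0 := by
    have : algebraMap k L 2 ≠ 0 := (map_ne_zero _).2 h2
    rwa [map_ofNat] at this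
  apply (base h L).nons h2L (hinj.ne h01) (hinj.ne h02) (hinj.ne h12)
  ring

include h h2 h01 h02 h12 in
lemma tp_eq : tp W L e0 = Affine.Point.some (algebraMap k L e0) 0 (tp_ns h h2 h01 h02 h12 L) := by
  unfold tp
  rw [dif_pos (tp_ns h h2 h01 h02 h12 L)]

include h h2 h01 h02 h12 in
lemma tp_add : tp W L e0 + tp W L e0 = 0 := by
  have h2L : (2 : L) ≠ 0 := by
    have : algebraMap k L 2 ≠ 0 := (map_ne_zero _).2 h2
    rwa [map_ofNat] at this
  rw [tp_eq h h2 h01 h02 h12 L]
  exact ((base h L).add_self h2L _).2 rfl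

include h h2 h01 h02 h12 in
lemma tp_isX : IsX (W.baseChange L) (algebraMap k L e0) (tp W L e0) := by
  rw [tp_eq h h2 h01 h02 h12 L]
  exact isX_some _

include h h2 h01 h02 h12 in
lemma tp_not {e : k} (he : e0 ≠ e) : ¬ IsX (W.baseChange L) (algebraMap k L e) (tp W L e0) := by
  rw [tp_eq h h2 h01 h02 h12 L]
  exact not_isX _ ((algebraMap k L).injective.ne he)

include h h2 h01 h02 h12 in
lemma act_tp {M : Type} [Field M] [Algebra k M] (φ : L →ₐ[k] M) :
    act W φ (tp W L e0) = tp W M e0 := by
  rw [tp_eq h h2 h01 h02 h12 L, tp_eq h h2 h01 h02 h12 M, act_some]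
  congr 1
  · exact φ.commutes e0
  · exact map_zero φ

end tp

section cc

variable (h : IsR W e0 e1 e2) (h2 : (2 : k) ≠ 0) (h01 : e0 ≠ e1) (h02 : e0 ≠ e2) (h12 : e1 ≠ e2)
  (a b : k)

include h h2 h01 h02 h12 in
lemma cc_add (σ : Gal k) : Cc W e0 e1 a b σ + Cc W e0 e1 a b σ = 0 := by
  have q1 := tp_add h.swap h2 h01.symm h12 h02 (AlgebraicClosure k)
  have q0 := tp_add h h2 h01 h02 h12 (AlgebraicClosure k)
  unfold Cc
  split_ifs
  · have e : ∀ A B : Pt W (AlgebraicClosure k), A + B + (A + B) = (A + A) + (B + B) := fun A B => by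
      abel
    rw [e, q1, q0, add_zero]
  · rw [add_zero, q1]
  · rw [zero_add, q0]
  · rw [add_zero, add_zero]

include h h2 h01 h02 h12 in
/-- the pairings of the cocycle with the points of order two -/
lemma cc_isX (σ : Gal k) :
    (IsX (W.baseChange (AlgebraicClosure k)) (algebraMap k _ e0) (Cc W e0 e1 a b σ) ↔ ¬ Fl a σ) ∧
    (IsX (W.baseChange (AlgebraicClosure k)) (algebraMap k _ e1) (Cc W e0 e1 a b σ) ↔ ¬ Fl b σ) ∧
    (IsX (W.baseChange (AlgebraicClosure k)) (algebraMap k _ e2) (Cc W e0 e1 a b σ) ↔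
      (Fl a σ ↔ Fl b σ)) := by
  have hinj : Function.Injective (algebraMap k (AlgebraicClosure k)) :=
    (algebraMap k (AlgebraicClosure k)).injective
  have h2L : (2 : AlgebraicClosure k) ≠ 0 := by
    have : algebraMap k (AlgebraicClosure k) 2 ≠ 0 := (map_ne_zero _).2 h2
    rwa [map_ofNat] at this
  have hB := base h (AlgebraicClosure k)
  have q1 := tp_add h.swap h2 h01.symm h12 h02 (AlgebraicClosure k)
  have q0 := tp_add h h2 h01 h02 h12 (AlgebraicClosure k)
  have z : (0 : Pt W (AlgebraicClosure k)) + 0 = 0 := add_zero 0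
  -- the pairings of the summands
  have t00 := tp_isX h h2 h01 h02 h12 (AlgebraicClosure k)
  have t01 := tp_not h h2 h01 h02 h12 (AlgebraicClosure k) h01
  have t02 := tp_not h h2 h01 h02 h12 (AlgebraicClosure k) h02
  have t10 := tp_not h.swap h2 h01.symm h12 h02 (AlgebraicClosure k) h01.symm
  have t11 := tp_isX h.swap h2 h01.symm h12 h02 (AlgebraicClosure k)
  have t12 := tp_not h.swap h2 h01.symm h12 h02 (AlgebraicClosure k) h12
  have A : ∀ (e : AlgebraicClosure k), IsX (W.baseChange (AlgebraicClosure k)) e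
      (0 : Pt W (AlgebraicClosure k)) := fun e => isX_zero e
  set T0 := tp W (AlgebraicClosure k) e0
  set T1 := tp W (AlgebraicClosure k) e1
  have s1 : (if Fl a σ then T1 else 0) + (if Fl a σ then T1 else 0) = 0 := by
    split_ifs
    · exact q1
    · exact z
  have s0 : (if Fl b σ then T0 else 0) + (if Fl b σ then T0 else 0) = 0 := by
    split_ifs
    · exact q0
    · exact z
  have c0 := hB.isX_add h2L (hinj.ne h01) (hinj.ne h02) (hinj.ne h12) s1 s0
  have c1 := hB.swap.isX_add h2L (hinj.ne h01.symm) (hinj.ne h12) (hinj.ne h02) s1 s0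
  have c2 := hB.rot.rot.isX_add h2L (hinj.ne h02.symm) (hinj.ne h12.symm) (hinj.ne h01) s1 s0
  have p1 : ∀ (e : AlgebraicClosure k), ¬ IsX (W.baseChange (AlgebraicClosure k)) e T1 →
      (IsX (W.baseChange (AlgebraicClosure k)) e (if Fl a σ then T1 else 0) ↔ ¬ Fl a σ) := by
    intro e he
    by_cases ha : Fl a σ
    · rw [if_pos ha]
      exact iff_of_false he (not_not.2 ha)
    · rw [if_neg ha]
      exact iff_of_true (A e) ha
  have p0 : ∀ (e : AlgebraicClosure k), ¬ IsX (W.baseChange (AlgebraicClosure k)) e T0 →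
      (IsX (W.baseChange (AlgebraicClosure k)) e (if Fl b σ then T0 else 0) ↔ ¬ Fl b σ) := by
    intro e he
    by_cases hb : Fl b σ
    · rw [if_pos hb]
      exact iff_of_false he (not_not.2 hb)
    · rw [if_neg hb]
      exact iff_of_true (A e) hb
  have r1 : IsX (W.baseChange (AlgebraicClosure k)) (algebraMap k _ e1)
      (if Fl a σ then T1 else 0) := by
    by_cases ha : Fl a σ
    · rw [if_pos ha]
      exact t11
    · rw [if_neg ha]
      exact A _
  have r0 : IsX (W.baseChange (AlgebraicClosure k)) (algebraMap k _ e0)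
      (if Fl b σ then T0 else 0) := by
    by_cases hb : Fl b σ
    · rw [if_pos hb]
      exact t00
    · rw [if_neg hb]
      exact A _
  refine ⟨?_, ?_, ?_⟩
  · refine c0.trans ((iff_congr (p1 _ t10) (iff_true_intro r0)).trans (iff_of_eq (iff_true _)))
  · refine c1.trans ((iff_congr (iff_true_intro r1) (p0 _ t01)).trans (iff_of_eq (true_iff _)))
  · exact c2.trans ((iff_congr (p1 _ t12) (p0 _ t02)).trans not_iff_not)

end cc

/-- `Fl` with a given square root -/
lemma fl_iff {a : k} {s : AlgebraicClosure k} (hs : s ^ 2 = algebraMap k (AlgebraicClosure k) a)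
    (σ : Gal k) : Fl a σ ↔ σ s ≠ s := by
  constructor
  · rintro ⟨t, ht, hne⟩ h
    have h1 : t ^ 2 = s ^ 2 := by rw [ht, hs]
    rcases sq_eq_sq_iff_eq_or_eq_neg.1 h1 with h2 | h2
    · rw [h2] at hne
      exact hne h
    · apply hne
      rw [h2, map_neg, h]
  · exact fun h => ⟨s, hs, h⟩

end

section restr

variable {k : Type} [Field k] {K Ω : Type} [Field K] [Field Ω] [Algebra k K] [Algebra K Ω]
  [Algebra k Ω] [IsScalarTower k K Ω] [CharZero k]

/-- restriction of automorphisms -/
lemma exists_restr (ι : AlgebraicClosure k →ₐ[k] Ω) (τ : Ω ≃ₐ[K] Ω) :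
    ∃ σ : Gal k, ∀ x, τ (ι x) = ι (σ x) := by
  let _ : Algebra (AlgebraicClosure k) Ω := ι.toRingHom.toAlgebra
  have : IsScalarTower k (AlgebraicClosure k) Ω :=
    IsScalarTower.of_algebraMap_eq (fun x => (ι.commutes x).symm)
  have : Normal k (AlgebraicClosure k) := IsAlgClosure.normal k (AlgebraicClosure k)
  let τ' : Ω ≃ₐ[k] Ω := τ.restrictScalars k
  refine ⟨τ'.restrictNormal (AlgebraicClosure k), ?_⟩
  intro x
  exact (AlgEquiv.restrictNormal_commutes τ' (AlgebraicClosure k) x).symm

end restr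

end Run7.h135.XK
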