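import Pool.Agent.Run7.h135.XK.Gen

/-!
# Project XK: a locally trivial cocycle comes from a point
-/

set_option autoImplicit false

open WeierstrassCurve

namespace Run7.h135.XK

open scoped Classical

open Pool.Agent.TH841.SH.D (Pt act Gal Coch IsCoc IsCob LocTriv cob)
open Pool.Agent.TH841.SH (IsR IsX gf isX_some isX_zero not_isX fix_mem)

section

variable {k : Type} [Field k] [CharZero k] {W : WeierstrassCurve k} {e0 e1 e2 : k}
  {K Ω : Type} [Field K] [Field Ω] [Algebra k K] [Algebra K Ω] [Algebra k Ω] [IsScalarTower k K Ω]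
  [IsGalois K Ω]

/-- one of the square roots -/
lemma one_root (h : IsR W e0 e1 e2) (h2 : (2 : Ω) ≠ 0) (h01 : e0 ≠ e1) (h02 : e0 ≠ e2)
    (h12 : e1 ≠ e2) (f : Gal k → Pt W (AlgebraicClosure k)) (hf : ∀ σ, f σ + f σ = 0)
    (ι : AlgebraicClosure k →ₐ[k] Ω) {u v : Ω} (R : Pt W Ω)
    (hn : (W.baseChange Ω).toAffine.Nonsingular u v) (hRe : R = Affine.Point.some u v hn) (hv : v ≠ 0)
    (hR : ∀ (τ : Ω ≃ₐ[K] Ω) (σ : Gal k), (∀ x, τ (ι x) = ι (σ x)) →
      act W (τ.toAlgHom.restrictScalars k) R = R + act W ι (f σ))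
    (c : k) (s : AlgebraicClosure k) (hs : s ^ 2 = algebraMap k _ c) (hc : c ≠ 0)
    (hse : ∀ σ : Gal k, (σ s = s ↔ IsX (W.baseChange (AlgebraicClosure k)) (algebraMap k _ e0) (f σ)))
    (hsn : ∀ σ : Gal k, σ s = s ∨ σ s = -s) (x : K)
    (hx : algebraMap K Ω x - algebraMap k Ω e0 =
      gf (W.baseChange Ω) (algebraMap k _ e0) (algebraMap k _ e1)
        (algebraMap k _ e2) R ^ 2) :
    ∃ z : K, x - algebraMap k K e0 = algebraMap k K c * z ^ 2 := by
  have hinj : Function.Injective (algebraMap k Ω) := (algebraMap k Ω).injective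
  obtain ⟨z, hz⟩ : ∃ z : K, algebraMap K Ω z =
      gf (W.baseChange Ω) (algebraMap k _ e0) (algebraMap k _ e1) (algebraMap k _ e2)
        R * ι s := by
    apply fix_mem
    intro τ
    obtain ⟨σ, hσ⟩ := exists_restr (K := K) ι τ
    have e1' : τ (gf (W.baseChange Ω) (algebraMap k _ e0) (algebraMap k _ e1) (algebraMap k _ e2)
        R) = gf (W.baseChange Ω) (algebraMap k _ e0) (algebraMap k _ e1)
        (algebraMap k _ e2) (act W (τ.toAlgHom.restrictScalars k) R) :=
      act_gf (a := e0) (b := e1) (c := e2) (τ.toAlgHom.restrictScalars k) R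
    rw [map_mul, e1', hR τ σ hσ, hσ]
    set T := act W ι (f σ) with hT
    have hTT : T + T = 0 := by
      rw [hT, ← map_add, hf, map_zero]
    have hTX : IsX (W.baseChange Ω) (algebraMap k Ω e0) T ↔ σ s = s := by
      rw [hT, act_isX, hse]
    obtain ⟨u', v', hn', e2', hv', h3, h4⟩ := (base h Ω).sign h2 (hinj.ne h01) (hinj.ne h02)
      (hinj.ne h12) hn hv hTT
    have e3 : R + T = Affine.Point.some u' v' hn' := by
      rw [hRe]
      exact e2'
    rw [e3, hRe]
    by_cases hX : IsX (W.baseChange Ω) (algebraMap k Ω e0) T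
    · rw [h3 hX, hTX.1 hX]
    · rw [h4 hX]
      have h5 : σ s ≠ s := fun h' => hX (hTX.2 h')
      rcases hsn σ with h7 | h7
      · exact absurd h7 h5
      · rw [h7, map_neg, neg_mul_neg]
  have hcK : algebraMap k K c ≠ 0 := (map_ne_zero _).2 hc
  refine ⟨z / algebraMap k K c, ?_⟩
  have h9 : (x - algebraMap k K e0) * algebraMap k K c = z ^ 2 := by
    apply (algebraMap K Ω).injective
    rw [map_mul, map_sub, map_pow, hz, ← IsScalarTower.algebraMap_apply, hx,
      ← IsScalarTower.algebraMap_apply]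
    have h8 : (ι s) ^ 2 = algebraMap k Ω c := by
      rw [← map_pow, hs, AlgHom.commutes]
    rw [← h8]
    ring
  rw [div_pow, ← h9]
  field_simp

end

theorem t_LTB : S_LTB := by
  intro k _ _ W e0 e1 e2 h h01 h02 h12 a b ha hb K _ _ hloc
  have hcK : CharZero K := charZero_of_injective_algebraMap (algebraMap k K).injective
  have hgal : IsGalois K (AlgebraicClosure K) := inferInstance
  have h2k : (2 : k) ≠ 0 := two_ne_zero
  have h2 : (2 : AlgebraicClosure K) ≠ 0 := by
    have : algebraMap K (AlgebraicClosure K) 2 ≠ 0 := (map_ne_zero _).2 two_ne_zero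
    rwa [map_ofNat] at this
  obtain ⟨ι⟩ : Nonempty (AlgebraicClosure k →ₐ[k] AlgebraicClosure K) := ⟨IsAlgClosed.lift⟩
  obtain ⟨P, hP⟩ := hloc ι
  obtain ⟨s, hs⟩ := IsAlgClosed.exists_pow_nat_eq (algebraMap k (AlgebraicClosure k) a)
    (n := 2) (by norm_num)
  obtain ⟨t, ht⟩ := IsAlgClosed.exists_pow_nat_eq (algebraMap k (AlgebraicClosure k) b)
    (n := 2) (by norm_num)
  have fs := fl_iff hs
  have ft := fl_iff ht
  have sq : ∀ {c : k} {r : AlgebraicClosure k}, r ^ 2 = algebraMap k (AlgebraicClosure k) c →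
      ∀ σ : Gal k, σ r = r ∨ σ r = -r := by
    intro c r hr σ
    apply sq_eq_sq_iff_eq_or_eq_neg.1
    rw [← map_pow, hr]
    exact AlgEquiv.commutes σ c
  have cadd := cc_add h h2k h01 h02 h12 a b
  have cx := cc_isX h h2k h01 h02 h12 a b
  have hB := base h (AlgebraicClosure K)
  have hinj : Function.Injective (algebraMap k (AlgebraicClosure K)) :=
    (algebraMap k (AlgebraicClosure K)).injective
  have hR : ∀ (τ : Gal K) (σ : Gal k), (∀ x, τ (ι x) = ι (σ x)) →
      act W (τ.toAlgHom.restrictScalars k) P = P + act W ι (Cc W e0 e1 a b σ) := by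
    intro τ σ hσ
    rw [hP τ σ hσ]
    abel
  by_cases h22 : P + P = 0
  · -- `P` is a rational point of order two
    left
    have hfix : ∀ τ : Gal K, act W (τ.toAlgHom.restrictScalars k) P = P := by
      intro τ
      have q : act W (τ.toAlgHom.restrictScalars k) P + act W (τ.toAlgHom.restrictScalars k) P = 0 := by
        rw [← map_add, h22, map_zero]
      exact hB.ext h2 (hinj.ne h01) (hinj.ne h02) (hinj.ne h12) q h22
        (act_isX W _ e0 P) (act_isX W _ e1 P)
    have hz : ∀ (τ : Gal K) (σ : Gal k), (∀ x, τ (ι x) = ι (σ x)) → Cc W e0 e1 a b σ = 0 := by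
      intro τ σ hσ
      have q := hP τ σ hσ
      rw [hfix, sub_self] at q
      apply act_inj W ι
      rw [q, map_zero]
    have key : ∀ {c : k} {r : AlgebraicClosure k}, r ^ 2 = algebraMap k (AlgebraicClosure k) c →
        (∀ σ : Gal k, Cc W e0 e1 a b σ = 0 → σ r = r) → IsSquare (algebraMap k K c) := by
      intro c r hr hσr
      obtain ⟨z, hz'⟩ : ∃ z : K, algebraMap K (AlgebraicClosure K) z = ι r := by
        apply fix_mem
        intro τ
        obtain ⟨σ, hσ⟩ := exists_restr (K := K) ι τ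
        rw [hσ, hσr σ (hz τ σ hσ)]
      refine ⟨z, ?_⟩
      apply (algebraMap K (AlgebraicClosure K)).injective
      rw [map_mul, hz', ← map_mul, ← pow_two, hr, AlgHom.commutes, ← IsScalarTower.algebraMap_apply]
    constructor
    · refine key hs fun σ h0 => ?_
      by_contra hne
      have := (cx σ).1.1 (by rw [h0]; exact isX_zero _)
      exact this ((fs σ).2 hne)
    · refine key ht fun σ h0 => ?_
      by_contra hne
      have := (cx σ).2.1.1 (by rw [h0]; exact isX_zero _)
      exact this ((ft σ).2 hne)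
  · right
    obtain ⟨u, v, hn, hPe⟩ : ∃ (u v : AlgebraicClosure K)
        (hn : (W.baseChange (AlgebraicClosure K)).toAffine.Nonsingular u v),
        P = Affine.Point.some u v hn := by
      rcases P with _ | ⟨u, v, hn⟩
      · exact absurd (add_zero 0) h22
      · exact ⟨u, v, hn, rfl⟩
    have hv : v ≠ 0 := by
      intro hv
      apply h22
      rw [hPe]
      exact (hB.add_self h2 hn).2 hv
    obtain ⟨X, Y, hn', q1, hXa⟩ := hB.dup h2 hn hv
    obtain ⟨X', Y', hn'', q1', hXb⟩ := hB.swap.dup h2 hn hv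
    rw [q1, Affine.Point.some.injEq] at q1'
    obtain ⟨rfl, rfl⟩ := q1'
    obtain ⟨X', Y', hn'', q1', hXc⟩ := hB.rot.rot.dup h2 hn hv
    rw [q1, Affine.Point.some.injEq] at q1'
    obtain ⟨rfl, rfl⟩ := q1'
    have hfix : ∀ τ : Gal K, τ X = X := by
      intro τ
      obtain ⟨σ, hσ⟩ := exists_restr (K := K) ι τ
      have q2 : P + P = Affine.Point.some X Y hn' := by
        rw [hPe]
        exact q1
      have h6 : act W (τ.toAlgHom.restrictScalars k) (.some X Y hn') = .some X Y hn' := by
        rw [← q2, map_add, hR τ σ hσ]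
        have h7 : act W ι (Cc W e0 e1 a b σ) + act W ι (Cc W e0 e1 a b σ) = 0 := by
          rw [← map_add, cadd, map_zero]
        have h8 : ∀ A B : Pt W (AlgebraicClosure K), (A + B) + (A + B) = (A + A) + (B + B) :=
          fun A B => by abel
        rw [h8, h7, add_zero]
      rw [act_some] at h6
      have h9 := (Affine.Point.some.injEq (W' := (W.baseChange (AlgebraicClosure K)).toAffine) _ _ _ _ _ _).mp h6
      exact h9.1
    obtain ⟨x, hx⟩ := fix_mem (K := K) X hfix
    obtain ⟨z0, hz0⟩ := one_root (K := K) h h2 h01 h02 h12 (Cc W e0 e1 a b) cadd ι P hn hPe hv hR a s hs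
      ha (fun σ => by rw [(cx σ).1, fs, not_not]) (sq hs) x (by rw [hx, hPe]; exact hXa)
    obtain ⟨z1, hz1⟩ := one_root (K := K) h.swap h2 h01.symm h12 h02 (Cc W e0 e1 a b) cadd ι P hn hPe hv hR
      b t ht hb (fun σ => by rw [(cx σ).2.1, ft, not_not]) (sq ht) x (by rw [hx, hPe]; exact hXb)
    have hst : (s * t) ^ 2 = algebraMap k (AlgebraicClosure k) (a * b) := by
      rw [mul_pow, hs, ht, map_mul]
    have hs0 : s ≠ 0 := by
      rintro rfl
      rw [zero_pow two_ne_zero, eq_comm, map_eq_zero] at hs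
      exact ha hs
    have ht0 : t ≠ 0 := by
      rintro rfl
      rw [zero_pow two_ne_zero, eq_comm, map_eq_zero] at ht
      exact hb ht
    have neg_ne : ∀ {r : AlgebraicClosure k}, r ≠ 0 → -r ≠ r := by
      intro r hr h0
      apply hr
      have h3 : (2 : AlgebraicClosure k) * r = 0 := by linear_combination -h0
      exact (mul_eq_zero.1 h3).resolve_left two_ne_zero
    obtain ⟨z2, hz2⟩ := one_root (K := K) h.rot.rot h2 h02.symm h12.symm h01 (Cc W e0 e1 a b) cadd ι
      P hn hPe hv hR (a * b) (s * t) hst (mul_ne_zero ha hb) (fun σ => by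
        rw [(cx σ).2.2, fs, ft, map_mul]
        rcases sq hs σ with p | p <;> rcases sq ht σ with q | q
        · simp [p, q]
        · rw [p, q, mul_neg]
          exact iff_of_false (neg_ne (mul_ne_zero hs0 ht0)) fun h' =>
            (h'.2 (neg_ne ht0)) rfl
        · rw [p, q, neg_mul]
          exact iff_of_false (neg_ne (mul_ne_zero hs0 ht0)) fun h' =>
            (h'.1 (neg_ne hs0)) rfl
        · rw [p, q, neg_mul_neg]
          exact iff_of_true rfl (iff_of_true (neg_ne hs0) (neg_ne ht0))) (sq hst) x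
      (by rw [hx, hPe]; exact hXc)
    exact ⟨x, z0, z1, z2, hz0, hz1, by rw [hz2, map_mul]⟩

end Run7.h135.XK
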